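import Mathlib

set_option autoImplicit false
set_option linter.unusedSectionVars false

open MeasureTheory Filter Topology
open scoped ComplexConjugate

namespace Pool.Agent.Helper60.Rot

/-- bounded measurable functions -/
def BM {Ω : Type*} [MeasurableSpace Ω] (a : Ω → ℂ) : Prop :=
  Measurable a ∧ ∃ C : ℝ, ∀ ω, ‖a ω‖ ≤ C

section BMlemmas
variable {Ω : Type*} [MeasurableSpace Ω] {a b : Ω → ℂ}

lemma BM.add (ha : BM a) (hb : BM b) : BM (a + b) := by
  obtain ⟨ha1, C, hC⟩ := ha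
  obtain ⟨hb1, D, hD⟩ := hb
  exact ⟨ha1.add hb1, C + D, fun ω => (norm_add_le _ _).trans (add_le_add (hC ω) (hD ω))⟩

lemma BM.mul (ha : BM a) (hb : BM b) : BM (a * b) := by
  obtain ⟨ha1, C, hC⟩ := ha
  obtain ⟨hb1, D, hD⟩ := hb
  refine ⟨ha1.mul hb1, C * D, fun ω => ?_⟩
  rw [Pi.mul_apply, norm_mul]
  exact mul_le_mul (hC ω) (hD ω) (norm_nonneg _) ((norm_nonneg _).trans (hC ω))

lemma BM.neg (ha : BM a) : BM (-a) := by
  obtain ⟨ha1, C, hC⟩ := ha
  exact ⟨ha1.neg, C, fun ω => by simpa using hC ω⟩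

lemma BM.sub (ha : BM a) (hb : BM b) : BM (a - b) := by
  rw [sub_eq_add_neg]; exact ha.add hb.neg

lemma BM.const (c : ℂ) : BM (fun _ : Ω => c) := ⟨measurable_const, ‖c‖, fun _ => le_rfl⟩

lemma BM.one : BM (1 : Ω → ℂ) := BM.const 1

lemma BM.smul (c : ℝ) (ha : BM a) : BM (c • a) := by
  obtain ⟨ha1, C, hC⟩ := ha
  refine ⟨ha1.const_smul c, |c| * C, fun ω => ?_⟩
  rw [Pi.smul_apply, norm_smul, Real.norm_eq_abs]
  exact mul_le_mul_of_nonneg_left (hC ω) (abs_nonneg _)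

lemma BM.conj (ha : BM a) : BM (fun ω => conj (a ω)) := by
  obtain ⟨ha1, C, hC⟩ := ha
  exact ⟨Complex.continuous_conj.measurable.comp ha1, C, fun ω => by simpa using hC ω⟩

lemma BM.indicator (ha : BM a) {A : Set Ω} (hA : MeasurableSet A) : BM (A.indicator a) := by
  obtain ⟨ha1, C, hC⟩ := ha
  refine ⟨ha1.indicator hA, C, fun ω => ?_⟩
  exact (norm_indicator_le_norm_self _ _).trans (hC ω)

lemma BM.ofReal {r : Ω → ℝ} (hr : Measurable r) {C : ℝ} (hC : ∀ ω, |r ω| ≤ C) :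
    BM (fun ω => (r ω : ℂ)) :=
  ⟨Complex.measurable_ofReal.comp hr, C, fun ω => by simpa using hC ω⟩

lemma BM.re (ha : BM a) : BM (fun ω => ((a ω).re : ℂ)) := by
  obtain ⟨ha1, C, hC⟩ := ha
  exact BM.ofReal (Complex.measurable_re.comp ha1)
    (fun ω => (Complex.abs_re_le_norm _).trans (hC ω))

lemma BM.im (ha : BM a) : BM (fun ω => ((a ω).im : ℂ)) := by
  obtain ⟨ha1, C, hC⟩ := ha
  exact BM.ofReal (Complex.measurable_im.comp ha1)
    (fun ω => (Complex.abs_im_le_norm _).trans (hC ω))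

end BMlemmas

/-- contractive sigma-continuous real-linear action of the bounded measurable complex functions. -/
structure Act (Ω : Type*) [MeasurableSpace Ω] (E : Type*) [NormedAddCommGroup E]
    [NormedSpace ℝ E] where
  M : (Ω → ℂ) → E →L[ℝ] E
  add : ∀ {a b : Ω → ℂ}, BM a → BM b → M (a + b) = M a + M b
  mul : ∀ {a b : Ω → ℂ}, BM a → BM b → ∀ f, M (a * b) f = M a (M b f)
  smul : ∀ {a : Ω → ℂ} (c : ℝ), BM a → M (c • a) = c • M a
  one : ∀ f, M 1 f = f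
  norm_le : ∀ {a : Ω → ℂ} {C : ℝ}, BM a → (∀ ω, ‖a ω‖ ≤ C) → 0 ≤ C → ∀ f, ‖M a f‖ ≤ C * ‖f‖
  cont : ∀ A : ℕ → Set Ω, (∀ n, MeasurableSet (A n)) → Antitone A → (⋂ n, A n) = ∅ →
    ∀ f, Tendsto (fun n => M ((A n).indicator 1) f) atTop (𝓝 0)

variable {Ω : Type*} [MeasurableSpace Ω] {E : Type*} [NormedAddCommGroup E] [NormedSpace ℝ E]

namespace Act

variable (R : Act Ω E)

/-- projection -/
noncomputable def P (A : Set Ω) : E →L[ℝ] E := R.M (A.indicator 1)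

lemma bmInd {A : Set Ω} (hA : MeasurableSet A) : BM (A.indicator (1 : Ω → ℂ)) :=
  BM.one.indicator hA

lemma M_mul_ind {A : Set Ω} (hA : MeasurableSet A) {a : Ω → ℂ} (ha : BM a) (f : E) :
    R.P A (R.M a f) = R.M (A.indicator a) f := by
  rw [P, ← R.mul (bmInd hA) ha]
  congr 2
  ext ω
  by_cases h : ω ∈ A <;> simp [h]

lemma M_mul_ind' {A : Set Ω} (hA : MeasurableSet A) {a : Ω → ℂ} (ha : BM a) (f : E) :
    R.M a (R.P A f) = R.M (A.indicator a) f := by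
  rw [P, ← R.mul ha (bmInd hA)]
  congr 2
  ext ω
  by_cases h : ω ∈ A <;> simp [h]

lemma comm {a b : Ω → ℂ} (ha : BM a) (hb : BM b) (f : E) : R.M a (R.M b f) = R.M b (R.M a f) := by
  rw [← R.mul ha hb, ← R.mul hb ha, mul_comm]

lemma M_comm_P {A : Set Ω} (hA : MeasurableSet A) {a : Ω → ℂ} (ha : BM a) (f : E) :
    R.M a (R.P A f) = R.P A (R.M a f) := R.comm ha (bmInd hA) f

lemma P_P {A B : Set Ω} (hA : MeasurableSet A) (hB : MeasurableSet B) (f : E) :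
    R.P A (R.P B f) = R.P (A ∩ B) f := by
  rw [P, P, P, ← R.mul (bmInd hA) (bmInd hB)]
  congr 2
  ext ω
  by_cases h : ω ∈ A <;> by_cases h' : ω ∈ B <;> simp [h, h']

lemma P_univ (f : E) : R.P Set.univ f = f := by
  rw [P, Set.indicator_univ, R.one]

lemma P_empty (f : E) : R.P ∅ f = 0 := by
  have h := R.norm_le (a := (∅ : Set Ω).indicator 1) (C := 0) (bmInd MeasurableSet.empty)
    (by intro ω; simp) le_rfl f
  rw [zero_mul] at h
  exact norm_le_zero_iff.mp h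

lemma P_union {A B : Set Ω} (hA : MeasurableSet A) (hB : MeasurableSet B) (hAB : Disjoint A B)
    (f : E) : R.P (A ∪ B) f = R.P A f + R.P B f := by
  have : (A ∪ B).indicator (1 : Ω → ℂ) = A.indicator 1 + B.indicator 1 := by
    rw [Set.indicator_union_of_disjoint hAB]; rfl
  rw [P, this, R.add (bmInd hA) (bmInd hB)]
  rfl

lemma P_compl {A : Set Ω} (hA : MeasurableSet A) (f : E) : R.P A f + R.P Aᶜ f = f := by
  rw [← R.P_union hA hA.compl disjoint_compl_right, Set.union_compl_self, R.P_univ]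

lemma P_compl' {A : Set Ω} (hA : MeasurableSet A) (f : E) : R.P Aᶜ f = f - R.P A f := by
  rw [eq_sub_iff_add_eq, add_comm]; exact R.P_compl hA f

lemma P_disj {A B : Set Ω} (hA : MeasurableSet A) (hB : MeasurableSet B) (hAB : Disjoint A B)
    (f : E) : R.P A (R.P B f) = 0 := by
  rw [R.P_P hA hB, hAB.inter_eq, R.P_empty]

lemma norm_P_le {A : Set Ω} (hA : MeasurableSet A) (f : E) : ‖R.P A f‖ ≤ ‖f‖ := by
  have := R.norm_le (a := A.indicator 1) (C := 1) (bmInd hA) (by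
    intro ω
    refine (norm_indicator_le_norm_self _ _).trans ?_
    simp) zero_le_one f
  rw [one_mul] at this
  exact this

lemma tendsto_mono (A : ℕ → Set Ω) (hA : ∀ n, MeasurableSet (A n)) (hm : Monotone A) {B : Set Ω}
    (hB : MeasurableSet B) (hU : (⋃ n, A n) = B) (f : E) :
    Tendsto (fun n => R.P (A n) f) atTop (𝓝 (R.P B f)) := by
  have h := R.cont (fun n => B \ A n) (fun n => hB.diff (hA n))
    (fun i j hij => Set.sdiff_subset_sdiff_right (hm hij)) (by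
      ext ω
      simp only [Set.mem_iInter, Set.mem_sdiff, Set.mem_empty_iff_false, iff_false, not_forall,
        not_and, not_not]
      by_cases hω : ω ∈ B
      · rw [← hU] at hω
        obtain ⟨n, hn⟩ := Set.mem_iUnion.mp hω
        exact ⟨n, fun _ => hn⟩
      · exact ⟨0, fun h => absurd h hω⟩) f
  have h2 : ∀ n, R.P (A n) f = R.P B f - R.M ((B \ A n).indicator 1) f := by
    intro n
    have hsub : A n ⊆ B := by rw [← hU]; exact Set.subset_iUnion A n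
    have : R.P B f = R.P (A n) f + R.P (B \ A n) f := by
      rw [← R.P_union (hA n) (hB.diff (hA n)) Set.disjoint_sdiff_right,
        Set.union_sdiff_cancel hsub]
    rw [this]
    simp [P]
  simp_rw [h2]
  simpa using tendsto_const_nhds.sub h

/-- a vector generating the module: every vector is a measurable function times x. -/
def IsUnit (x : E) : Prop := ∀ f : E, ∃ g : Ω → ℂ, Measurable g ∧
  ∀ A : Set Ω, MeasurableSet A → (∃ C : ℝ, ∀ ω ∈ A, ‖g ω‖ ≤ C) → R.P A f = R.M (A.indicator g) x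

lemma bm_of_bdd {g : Ω → ℂ} (hg : Measurable g) {A : Set Ω} (hA : MeasurableSet A)
    (h : ∃ C : ℝ, ∀ ω ∈ A, ‖g ω‖ ≤ C) : BM (A.indicator g) := by
  obtain ⟨C, hC⟩ := h
  refine ⟨hg.indicator hA, max C 0, fun ω => ?_⟩
  by_cases hω : ω ∈ A
  · simpa [hω] using Or.inl (hC ω hω)
  · simp [hω]

/-- sublevel sets -/
lemma sub_meas {g : Ω → ℂ} (hg : Measurable g) (n : ℕ) : MeasurableSet {ω | ‖g ω‖ ≤ n} :=
  measurableSet_le hg.norm measurable_const

lemma sub_mono (g : Ω → ℂ) : Monotone (fun n : ℕ => {ω | ‖g ω‖ ≤ n}) := by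
  intro i j hij ω hω
  exact le_trans (show ‖g ω‖ ≤ i from hω) (Nat.cast_le.mpr hij)

lemma sub_union (g : Ω → ℂ) : (⋃ n : ℕ, {ω | ‖g ω‖ ≤ n}) = Set.univ := by
  ext ω
  simp only [Set.mem_iUnion, Set.mem_ofPred_eq, Set.mem_univ, iff_true]
  exact exists_nat_ge _

variable {R}

/-- approximation of every vector by `M a x`. -/
lemma IsUnit.approx {x : E} (hx : R.IsUnit x) (f : E) : ∃ g : Ω → ℂ, Measurable g ∧
    (∀ n : ℕ, R.P {ω | ‖g ω‖ ≤ n} f = R.M ({ω | ‖g ω‖ ≤ n}.indicator g) x) ∧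
    Tendsto (fun n : ℕ => R.M ({ω | ‖g ω‖ ≤ n}.indicator g) x) atTop (𝓝 f) := by
  obtain ⟨g, hg, h⟩ := hx f
  have h1 : ∀ n : ℕ, R.P {ω | ‖g ω‖ ≤ n} f = R.M ({ω | ‖g ω‖ ≤ n}.indicator g) x :=
    fun n => h _ (sub_meas hg n) ⟨n, fun ω hω => hω⟩
  refine ⟨g, hg, h1, ?_⟩
  have := R.tendsto_mono (fun n : ℕ => {ω | ‖g ω‖ ≤ n}) (sub_meas hg) (sub_mono g)
    MeasurableSet.univ (sub_union g) f
  rw [R.P_univ] at this
  simpa [h1] using this

lemma bm_sub {g : Ω → ℂ} (hg : Measurable g) (n : ℕ) : BM ({ω | ‖g ω‖ ≤ n}.indicator g) :=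
  bm_of_bdd hg (sub_meas hg n) ⟨n, fun _ h => h⟩

/-- density / extensionality -/
lemma IsUnit.ext {x : E} (hx : R.IsUnit x) {F : Type*} [TopologicalSpace F] [T2Space F]
    {S T : E → F} (hS : Continuous S) (hT : Continuous T)
    (h : ∀ a : Ω → ℂ, BM a → S (R.M a x) = T (R.M a x)) (f : E) : S f = T f := by
  obtain ⟨g, hg, -, h2⟩ := hx.approx f
  have h3 := (hS.tendsto f).comp h2
  have h4 := (hT.tendsto f).comp h2
  refine tendsto_nhds_unique h3 (h4.congr fun n => ?_)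
  simp only [Function.comp]
  exact (h _ (bm_sub hg n)).symm

lemma IsUnit.P_eq_zero {x : E} (hx : R.IsUnit x) {A : Set Ω} (hA : MeasurableSet A)
    (h : R.P A x = 0) (f : E) : R.P A f = 0 := by
  refine hx.ext (S := R.P A) (T := fun _ => (0 : E)) (R.P A).continuous continuous_const ?_ f
  intro a ha
  rw [← R.M_comm_P hA ha, h, map_zero]


/-! ### skew operators -/

/-- `psi` is a norming functional of `f`. -/
def Norming (f : E) (ψ : E →L[ℝ] ℝ) : Prop := ‖ψ‖ ≤ 1 ∧ ψ f = ‖f‖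

lemma Norming.le {f : E} {ψ : E →L[ℝ] ℝ} (h : Norming f ψ) (g : E) : ψ g ≤ ‖g‖ :=
  (le_abs_self _).trans (by simpa using ψ.le_of_opNorm_le h.1 g)

/-- real skew operators: `psi (D f) = 0` for every norming pair. -/
def Skew (D : E →L[ℝ] E) : Prop := ∀ (f : E) (ψ : E →L[ℝ] ℝ), Norming f ψ → ψ (D f) = 0

lemma Skew.sub {D D' : E →L[ℝ] E} (h : Skew D) (h' : Skew D') : Skew (D - D') := by
  intro f ψ hψ
  simp [h f ψ hψ, h' f ψ hψ]

lemma Skew.add {D D' : E →L[ℝ] E} (h : Skew D) (h' : Skew D') : Skew (D + D') := by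
  intro f ψ hψ
  simp [h f ψ hψ, h' f ψ hψ]

lemma Skew.smul {D : E →L[ℝ] E} (h : Skew D) (c : ℝ) : Skew (c • D) := by
  intro f ψ hψ
  simp [h f ψ hψ]

lemma Skew.conj {D : E →L[ℝ] E} (h : Skew D) (U V : E →L[ℝ] E) (hU : ∀ f, ‖U f‖ ≤ ‖f‖)
    (hV : ∀ f, ‖V f‖ ≤ ‖f‖) (hVU : ∀ f, V (U f) = f) : Skew (V.comp (D.comp U)) := by
  intro f ψ hψ
  have hUf : ‖U f‖ = ‖f‖ := le_antisymm (hU f) (by simpa [hVU] using hV (U f))
  refine h (U f) (ψ.comp V) ⟨?_, ?_⟩
  · refine ContinuousLinearMap.opNorm_le_bound _ zero_le_one fun g => ?_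
    rw [one_mul]
    exact (by simpa using ψ.le_of_opNorm_le hψ.1 (V g) : ‖ψ (V g)‖ ≤ ‖V g‖).trans (hV g)
  · simp [hVU, hψ.2, hUf]

/-- a norming functional exists. -/
lemma exists_norming (f : E) : ∃ ψ : E →L[ℝ] ℝ, Norming f ψ := by
  obtain ⟨g, hg1, hg2⟩ := exists_dual_vector'' ℝ f
  exact ⟨g, hg1, by simpa using hg2⟩

/-- a nilpotent skew operator vanishes -/
lemma Skew.eq_zero_of_sq {O : E →L[ℝ] E} (h : Skew O) (h2 : ∀ f, O (O f) = 0) (f : E) :
    O f = 0 := by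
  have key : ∀ (g : E) (t : ℝ), ‖g‖ ≤ ‖g + t • O g‖ := by
    intro g t
    obtain ⟨ψ, hψ⟩ := exists_norming g
    have h1 := hψ.le (g + t • O g)
    rwa [map_add, map_smul, h g ψ hψ, smul_zero, add_zero, hψ.2] at h1
  have h3 : ∀ t : ℝ, ‖f + t • O f‖ ≤ ‖f‖ := by
    intro t
    have := key (f + t • O f) (-t)
    rwa [map_add, map_smul, h2, smul_zero, add_zero, add_assoc, ← add_smul, add_neg_cancel,
      zero_smul, add_zero] at this
  by_contra hne
  have hpos : 0 < ‖O f‖ := norm_pos_iff.mpr hne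
  have h4 := h3 ((2 * ‖f‖ + 1) / ‖O f‖)
  have h5 : ‖((2 * ‖f‖ + 1) / ‖O f‖) • O f‖ = 2 * ‖f‖ + 1 := by
    rw [norm_smul, Real.norm_eq_abs, abs_of_nonneg (by positivity)]
    field_simp
  have h6 : ‖((2 * ‖f‖ + 1) / ‖O f‖) • O f‖ ≤ ‖f + ((2 * ‖f‖ + 1) / ‖O f‖) • O f‖ + ‖f‖ := by
    have := norm_sub_le (f + ((2 * ‖f‖ + 1) / ‖O f‖) • O f) f
    rwa [add_sub_cancel_left] at this
  linarith

variable (R)

/-- `i a` is skew for real `a`. -/
lemma skew_im {a : Ω → ℝ} (ha : Measurable a) {C : ℝ} (hC : ∀ ω, |a ω| ≤ C) :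
    Skew (R.M (fun ω => Complex.I * (a ω : ℂ))) := by
  intro f ψ hψ
  have hb : BM (fun ω => Complex.I * (a ω : ℂ)) := (BM.const Complex.I).mul (BM.ofReal ha hC)
  set s := ψ (R.M (fun ω => Complex.I * (a ω : ℂ)) f) with hs
  have key : ∀ t : ℝ, t * s ≤ t ^ 2 * (C ^ 2 / 2 * ‖f‖) := by
    intro t
    have h1 : R.M (1 + t • (fun ω => Complex.I * (a ω : ℂ))) f
        = f + t • R.M (fun ω => Complex.I * (a ω : ℂ)) f := by
      rw [R.add BM.one (hb.smul t), R.smul t hb]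
      simp [R.one]
    have h2 : ‖R.M (1 + t • (fun ω => Complex.I * (a ω : ℂ))) f‖ ≤ (1 + t ^ 2 * C ^ 2 / 2) * ‖f‖ := by
      refine R.norm_le (BM.one.add (hb.smul t)) (fun ω => ?_) (by positivity) f
      have h3 : ‖(1 + t • (fun ω => Complex.I * (a ω : ℂ))) ω‖ ^ 2 = 1 + (t * a ω) ^ 2 := by
        rw [Complex.sq_norm, Complex.normSq_apply]
        simp
        ring
      have h4 : (a ω) ^ 2 ≤ C ^ 2 := sq_le_sq' (by linarith [(abs_le.mp (hC ω)).1])
        (abs_le.mp (hC ω)).2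
      have h5 : ‖(1 + t • (fun ω => Complex.I * (a ω : ℂ))) ω‖ ^ 2 ≤ (1 + t ^ 2 * C ^ 2 / 2) ^ 2 := by
        rw [h3]
        have : (t * a ω) ^ 2 ≤ t ^ 2 * C ^ 2 := by
          rw [mul_pow]; exact mul_le_mul_of_nonneg_left h4 (sq_nonneg _)
        nlinarith [sq_nonneg (t ^ 2 * C ^ 2 / 2)]
      exact (sq_le_sq₀ (norm_nonneg _) (by positivity)).mp h5
    have h6 := hψ.le (f + t • R.M (fun ω => Complex.I * (a ω : ℂ)) f)
    rw [← h1] at h6
    have h7 := h6.trans h2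
    rw [h1, map_add, map_smul, hψ.2, ← hs, smul_eq_mul] at h7
    linarith
  have h8 : ∀ K : ℝ, 0 ≤ K → (∀ t : ℝ, t * s ≤ t ^ 2 * K) → s = 0 := by
    intro K hK h
    by_contra hne
    have h1 := h (s / (2 * (K + 1)))
    have h2 : 0 < s ^ 2 := by positivity
    have h3 : s / (2 * (K + 1)) * s = s ^ 2 / (2 * (K + 1)) := by ring
    have h4 : (s / (2 * (K + 1))) ^ 2 * K = s ^ 2 / (2 * (K + 1)) * (K / (2 * (K + 1))) := by
      field_simp
    rw [h3, h4] at h1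
    have h5 : 0 < s ^ 2 / (2 * (K + 1)) := by positivity
    have h6 : K / (2 * (K + 1)) < 1 := by
      rw [div_lt_one (by positivity)]; linarith
    nlinarith
  exact h8 _ (by positivity) key

end Act

end Pool.Agent.Helper60.Rot
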