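import Pool.Agent.Helper60.Rot.Meas

set_option autoImplicit false
set_option linter.unusedSectionVars false

open MeasureTheory Filter Topology
open scoped ComplexConjugate ENNReal

namespace Pool.Agent.Helper60.Rot
namespace Act

variable {Ω : Type*} [MeasurableSpace Ω] {E : Type*} [NormedAddCommGroup E] [NormedSpace ℝ E]
variable (R : Act Ω E)

/-- the real-bilinear form `psi (conj a D (b f))`. -/
noncomputable def beta (D : E →L[ℝ] E) (f : E) (ψ : E →L[ℝ] ℝ) (a b : Ω → ℂ) : ℝ :=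
  ψ (R.M (fun ω => conj (a ω)) (D (R.M b f)))

variable {D : E →L[ℝ] E} {f : E} {ψ : E →L[ℝ] ℝ}

lemma beta_add_left {a a' b : Ω → ℂ} (ha : BM a) (ha' : BM a') :
    R.beta D f ψ (a + a') b = R.beta D f ψ a b + R.beta D f ψ a' b := by
  have : (fun ω => conj ((a + a') ω)) = (fun ω => conj (a ω)) + (fun ω => conj (a' ω)) := by
    ext ω; simp
  rw [beta, this, R.add ha.conj ha'.conj, _root_.add_apply, map_add]; rfl

lemma beta_add_right {a b b' : Ω → ℂ} (hb : BM b) (hb' : BM b') :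
    R.beta D f ψ a (b + b') = R.beta D f ψ a b + R.beta D f ψ a b' := by
  rw [beta, R.add hb hb', _root_.add_apply, map_add, map_add, map_add]; rfl

lemma beta_smul_left {a b : Ω → ℂ} (c : ℝ) (ha : BM a) :
    R.beta D f ψ (c • a) b = c * R.beta D f ψ a b := by
  have : (fun ω => conj ((c • a) ω)) = c • (fun ω => conj (a ω)) := by
    ext ω; simp
  rw [beta, this, R.smul c ha.conj, _root_.smul_apply, map_smul]; rfl

lemma beta_smul_right {a b : Ω → ℂ} (c : ℝ) (hb : BM b) :
    R.beta D f ψ a (c • b) = c * R.beta D f ψ a b := by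
  rw [beta, R.smul c hb, _root_.smul_apply, map_smul, map_smul, map_smul]; rfl

lemma norm_M_unimod_le {u : Ω → ℂ} (hu : Measurable u) (h1 : ∀ ω, ‖u ω‖ = 1) (g : E) :
    ‖R.M u g‖ ≤ ‖g‖ := by
  have := R.norm_le (a := u) (C := 1) ⟨hu, 1, fun ω => (h1 ω).le⟩ (fun ω => (h1 ω).le) zero_le_one g
  simpa using this

lemma conj_mul_unimod {u : Ω → ℂ} (h1 : ∀ ω, ‖u ω‖ = 1) :
    (fun ω => conj (u ω)) * u = 1 := by
  ext ω
  simp only [Pi.mul_apply, Pi.one_apply]
  rw [← Complex.normSq_eq_conj_mul_self, Complex.normSq_eq_norm_sq, h1 ω]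
  simp

lemma beta_unimod (hD : Skew D) (hψ : Norming f ψ) {u : Ω → ℂ} (hu : Measurable u)
    (h1 : ∀ ω, ‖u ω‖ = 1) : R.beta D f ψ u u = 0 := by
  have hb : BM u := ⟨hu, 1, fun ω => (h1 ω).le⟩
  have h2 := hD.conj (R.M u) (R.M (fun ω => conj (u ω))) (R.norm_M_unimod_le hu h1)
    (R.norm_M_unimod_le (Complex.continuous_conj.measurable.comp hu) (fun ω => by simp [h1 ω]))
    (fun g => by rw [← R.mul hb.conj hb, conj_mul_unimod h1, R.one])
  exact h2 f ψ hψ

/-- antisymmetry, unimodular case -/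
lemma anti_unimod (hD : Skew D) (hψ : Norming f ψ) {A B : Set Ω} (hA : MeasurableSet A)
    (hB : MeasurableSet B) (hAB : Disjoint A B) {p q : Ω → ℂ} (hp : Measurable p)
    (hp1 : ∀ ω, ‖p ω‖ = 1) (hq : Measurable q) (hq1 : ∀ ω, ‖q ω‖ = 1) :
    R.beta D f ψ (A.indicator p) (B.indicator q) + R.beta D f ψ (B.indicator q) (A.indicator p)
      = 0 := by
  have hbp : BM (A.indicator p) := BM.indicator ⟨hp, 1, fun ω => (hp1 ω).le⟩ hA
  have hbq : BM (B.indicator q) := BM.indicator ⟨hq, 1, fun ω => (hq1 ω).le⟩ hB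
  have hbc : BM ((A ∪ B)ᶜ.indicator (1 : Ω → ℂ)) := bmInd (hA.union hB).compl
  have key : ∀ s t : ℝ, |s| = 1 → |t| = 1 →
      R.beta D f ψ (A.indicator p + (s • B.indicator q + t • (A ∪ B)ᶜ.indicator (1 : Ω → ℂ)))
        (A.indicator p + (s • B.indicator q + t • (A ∪ B)ᶜ.indicator (1 : Ω → ℂ))) = 0 := by
    intro s t hs ht
    have hb : BM (A.indicator p + (s • B.indicator q + t • (A ∪ B)ᶜ.indicator (1 : Ω → ℂ))) :=
      hbp.add ((hbq.smul s).add (hbc.smul t))
    refine R.beta_unimod hD hψ hb.1 (fun ω => ?_)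
    by_cases h1 : ω ∈ A
    · have h2 : ω ∉ B := fun h => (Set.disjoint_left.mp hAB h1) h
      simp [h1, h2, hp1 ω]
    · by_cases h2 : ω ∈ B
      · simp [h1, h2, hq1 ω, hs]
      · simp [h1, h2, ht]
  have expand : ∀ s t : ℝ,
      R.beta D f ψ (A.indicator p + (s • B.indicator q + t • (A ∪ B)ᶜ.indicator (1 : Ω → ℂ)))
        (A.indicator p + (s • B.indicator q + t • (A ∪ B)ᶜ.indicator (1 : Ω → ℂ)))
      = R.beta D f ψ (A.indicator p) (A.indicator p)
        + s * (R.beta D f ψ (A.indicator p) (B.indicator q)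
              + R.beta D f ψ (B.indicator q) (A.indicator p))
        + t * (R.beta D f ψ (A.indicator p) ((A ∪ B)ᶜ.indicator 1)
              + R.beta D f ψ ((A ∪ B)ᶜ.indicator 1) (A.indicator p))
        + s * t * (R.beta D f ψ (B.indicator q) ((A ∪ B)ᶜ.indicator 1)
              + R.beta D f ψ ((A ∪ B)ᶜ.indicator 1) (B.indicator q))
        + s ^ 2 * R.beta D f ψ (B.indicator q) (B.indicator q)
        + t ^ 2 * R.beta D f ψ ((A ∪ B)ᶜ.indicator 1) ((A ∪ B)ᶜ.indicator 1) := by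
    intro s t
    rw [R.beta_add_left hbp ((hbq.smul s).add (hbc.smul t)),
      R.beta_add_left (hbq.smul s) (hbc.smul t),
      R.beta_add_right hbp ((hbq.smul s).add (hbc.smul t)),
      R.beta_add_right (hbq.smul s) (hbc.smul t),
      R.beta_add_right hbp ((hbq.smul s).add (hbc.smul t)),
      R.beta_add_right (hbq.smul s) (hbc.smul t),
      R.beta_add_right hbp ((hbq.smul s).add (hbc.smul t)),
      R.beta_add_right (hbq.smul s) (hbc.smul t)]
    simp only [R.beta_smul_left _ hbq, R.beta_smul_left _ hbc, R.beta_smul_right _ hbq,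
      R.beta_smul_right _ hbc]
    ring
  have h1 := key 1 1 (by simp) (by simp)
  have h2 := key 1 (-1) (by simp) (by simp)
  have h3 := key (-1) 1 (by simp) (by simp)
  have h4 := key (-1) (-1) (by simp) (by simp)
  rw [expand] at h1 h2 h3 h4
  linarith

/-- decomposition of a real function bounded by one into unimodular functions -/
lemma unimod_pm {p : Ω → ℝ} (hp : Measurable p) (h1 : ∀ ω, |p ω| ≤ 1) (σ : ℝ) (hσ : σ ^ 2 = 1)
    (c : ℂ) (hc : ‖c‖ = 1) :
    Measurable (fun ω => c * ((p ω : ℂ) + Complex.I * ((σ * Real.sqrt (1 - p ω ^ 2) : ℝ) : ℂ))) ∧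
    ∀ ω, ‖c * ((p ω : ℂ) + Complex.I * ((σ * Real.sqrt (1 - p ω ^ 2) : ℝ) : ℂ))‖ = 1 := by
  constructor
  · have h2 : Measurable (fun ω => σ * Real.sqrt (1 - p ω ^ 2)) :=
      (Real.continuous_sqrt.measurable.comp (measurable_const.sub (hp.pow_const 2))).const_mul σ
    exact ((Complex.measurable_ofReal.comp hp).add
      ((Complex.measurable_ofReal.comp h2).const_mul Complex.I)).const_mul c
  · intro ω
    rw [norm_mul, hc, one_mul]
    have h3 : (0 : ℝ) ≤ 1 - p ω ^ 2 := by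
      have := abs_le.mp (h1 ω)
      nlinarith
    have h4 : ‖(p ω : ℂ) + Complex.I * ((σ * Real.sqrt (1 - p ω ^ 2) : ℝ) : ℂ)‖ ^ 2 = 1 := by
      rw [Complex.sq_norm, Complex.normSq_apply]
      simp only [Complex.add_re, Complex.ofReal_re, Complex.mul_re, Complex.I_re, zero_mul,
        Complex.I_im, Complex.ofReal_im, mul_zero, sub_zero, add_zero, Complex.add_im,
        Complex.mul_im, one_mul, zero_add]
      nlinarith [Real.mul_self_sqrt h3]
    have h5 := norm_nonneg ((p ω : ℂ) + Complex.I * ((σ * Real.sqrt (1 - p ω ^ 2) : ℝ) : ℂ))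
    nlinarith

/-- Every bounded measurable function is a real-linear combination of four unimodular ones. -/
lemma exists_unimod_decomp {a : Ω → ℂ} (ha : BM a) : ∃ (c : ℝ) (u : Fin 4 → Ω → ℂ),
    (∀ k, Measurable (u k)) ∧ (∀ k ω, ‖u k ω‖ = 1) ∧
    a = c • (u 0 + (u 1 + (u 2 + u 3))) := by
  obtain ⟨ha1, C, hC⟩ := ha
  set K : ℝ := |C| + 1 with hK
  have hKpos : 0 < K := by positivity
  have hCK : C ≤ K := by rw [hK]; linarith [le_abs_self C]
  set p : Ω → ℝ := fun ω => (a ω).re / K with hp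
  set q : Ω → ℝ := fun ω => (a ω).im / K with hq
  have hpm : Measurable p := (Complex.measurable_re.comp ha1).div_const K
  have hqm : Measurable q := (Complex.measurable_im.comp ha1).div_const K
  have hp1 : ∀ ω, |p ω| ≤ 1 := by
    intro ω
    rw [hp, abs_div, abs_of_pos hKpos, div_le_one hKpos]
    exact ((Complex.abs_re_le_norm _).trans (hC ω)).trans hCK
  have hq1 : ∀ ω, |q ω| ≤ 1 := by
    intro ω
    rw [hq, abs_div, abs_of_pos hKpos, div_le_one hKpos]
    exact ((Complex.abs_im_le_norm _).trans (hC ω)).trans hCK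
  have e1 := unimod_pm hpm hp1 1 (by norm_num) 1 (by simp)
  have e2 := unimod_pm hpm hp1 (-1) (by norm_num) 1 (by simp)
  have e3 := unimod_pm hqm hq1 1 (by norm_num) Complex.I (by simp)
  have e4 := unimod_pm hqm hq1 (-1) (by norm_num) Complex.I (by simp)
  refine ⟨K / 2, ![fun ω => 1 * ((p ω : ℂ) + Complex.I * ((1 * Real.sqrt (1 - p ω ^ 2) : ℝ) : ℂ)),
    fun ω => 1 * ((p ω : ℂ) + Complex.I * ((-1 * Real.sqrt (1 - p ω ^ 2) : ℝ) : ℂ)),
    fun ω => Complex.I * ((q ω : ℂ) + Complex.I * ((1 * Real.sqrt (1 - q ω ^ 2) : ℝ) : ℂ)),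
    fun ω => Complex.I * ((q ω : ℂ) + Complex.I * ((-1 * Real.sqrt (1 - q ω ^ 2) : ℝ) : ℂ))],
    ?_, ?_, ?_⟩
  · intro k
    fin_cases k
    exacts [e1.1, e2.1, e3.1, e4.1]
  · intro k
    fin_cases k
    exacts [e1.2, e2.2, e3.2, e4.2]
  · ext ω
    simp only [Matrix.cons_val, Pi.smul_apply, Pi.add_apply]
    have h1 : a ω = (K : ℂ) * ((p ω : ℂ) + Complex.I * (q ω : ℂ)) := by
      have hK' : (K : ℂ) ≠ 0 := by exact_mod_cast hKpos.ne'
      rw [hp, hq]
      push_cast
      field_simp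
      rw [mul_comm, Complex.re_add_im]
    rw [h1, Complex.real_smul]
    push_cast
    ring

/-- antisymmetry for disjointly supported bounded functions -/
theorem anti (hD : Skew D) (hψ : Norming f ψ) {A B : Set Ω} (hA : MeasurableSet A)
    (hB : MeasurableSet B) (hAB : Disjoint A B) {a b : Ω → ℂ} (ha : BM a) (hb : BM b) :
    R.beta D f ψ (A.indicator a) (B.indicator b) + R.beta D f ψ (B.indicator b) (A.indicator a)
      = 0 := by
  obtain ⟨c, u, hu, hu1, rfl⟩ := exists_unimod_decomp ha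
  obtain ⟨d, v, hv, hv1, rfl⟩ := exists_unimod_decomp hb
  have hbu : ∀ k, BM (A.indicator (u k)) := fun k =>
    BM.indicator ⟨hu k, 1, fun ω => (hu1 k ω).le⟩ hA
  have hbv : ∀ k, BM (B.indicator (v k)) := fun k =>
    BM.indicator ⟨hv k, 1, fun ω => (hv1 k ω).le⟩ hB
  have e1 : A.indicator (c • (u 0 + (u 1 + (u 2 + u 3))))
      = c • (A.indicator (u 0) + (A.indicator (u 1) + (A.indicator (u 2) + A.indicator (u 3)))) := by
    ext ω; by_cases h : ω ∈ A <;> simp [h]
  have e2 : B.indicator (d • (v 0 + (v 1 + (v 2 + v 3))))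
      = d • (B.indicator (v 0) + (B.indicator (v 1) + (B.indicator (v 2) + B.indicator (v 3)))) := by
    ext ω; by_cases h : ω ∈ B <;> simp [h]
  have b3 := (hbu 2).add (hbu 3)
  have b2 := (hbu 1).add b3
  have b1 := (hbu 0).add b2
  have c3 := (hbv 2).add (hbv 3)
  have c2 := (hbv 1).add c3
  have c1 := (hbv 0).add c2
  rw [e1, e2, R.beta_smul_left c b1, R.beta_smul_left d c1, R.beta_smul_right d c1,
    R.beta_smul_right c b1]
  simp only [R.beta_add_left (hbu 0) b2, R.beta_add_left (hbu 1) b3,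
    R.beta_add_left (hbu 2) (hbu 3), R.beta_add_left (hbv 0) c2, R.beta_add_left (hbv 1) c3,
    R.beta_add_left (hbv 2) (hbv 3), R.beta_add_right (hbu 0) b2, R.beta_add_right (hbu 1) b3,
    R.beta_add_right (hbu 2) (hbu 3), R.beta_add_right (hbv 0) c2, R.beta_add_right (hbv 1) c3,
    R.beta_add_right (hbv 2) (hbv 3)]
  have key : ∀ k l, R.beta D f ψ (B.indicator (v l)) (A.indicator (u k))
      = - R.beta D f ψ (A.indicator (u k)) (B.indicator (v l)) := by
    intro k l
    have := R.anti_unimod hD hψ hA hB hAB (hu k) (hu1 k) (hv l) (hv1 l)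
    linarith
  simp only [key]
  ring

end Act
end Pool.Agent.Helper60.Rot
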