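import Pool.Agent.Helper60.Rot.Full

set_option autoImplicit false
set_option linter.unusedSectionVars false

open MeasureTheory Filter Topology
open scoped ComplexConjugate ENNReal

namespace Pool.Agent.Helper60.Rot
namespace Act

variable {Ω : Type*} [MeasurableSpace Ω] {E : Type*} [NormedAddCommGroup E] [NormedSpace ℝ E]
variable {R : Act Ω E}

/-- intertwining off the diagonal forces a corner to vanish. -/
lemma corner_zero {r : Ω → ℝ} (hr : Measurable r) {A B : Set Ω} (hA : MeasurableSet A)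
    (hB : MeasurableSet B) {s t K : ℝ} (ht : 0 ≤ t) (hts : t < s) (hrA : ∀ ω ∈ A, s ≤ r ω)
    (hrK : ∀ ω ∈ A, r ω ≤ K)
    (hrB : ∀ ω ∈ B, 0 ≤ r ω ∧ r ω ≤ t) (D : E →L[ℝ] E)
    (hint : ∀ f, R.M (A.indicator fun ω => (r ω : ℂ)) (D (R.P B f))
      = R.P A (D (R.M (B.indicator fun ω => (r ω : ℂ)) f))) (f : E) :
    R.P A (D (R.P B f)) = 0 := by
  have hs : 0 < s := lt_of_le_of_lt ht hts
  have hrc : Measurable (fun ω => (r ω : ℂ)) := Complex.measurable_ofReal.comp hr
  have hbA : BM (A.indicator fun ω => (r ω : ℂ)) := bm_of_bdd hrc hA ⟨K, fun ω hω => by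
    rw [Complex.norm_real, Real.norm_eq_abs, abs_of_nonneg (hs.le.trans (hrA ω hω))]
    exact hrK ω hω⟩
  have hbB : BM (B.indicator fun ω => (r ω : ℂ)) := bm_of_bdd hrc hB ⟨t, fun ω hω => by
    rw [Complex.norm_real, Real.norm_eq_abs, abs_of_nonneg (hrB ω hω).1]
    exact (hrB ω hω).2⟩
  have hbQ : BM (A.indicator fun ω => ((r ω)⁻¹ : ℂ)) := bm_of_bdd hrc.inv hA ⟨s⁻¹, fun ω hω => by
    rw [Pi.inv_apply, norm_inv, Complex.norm_real, Real.norm_eq_abs, abs_of_nonneg (hs.le.trans (hrA ω hω))]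
    exact inv_anti₀ hs (hrA ω hω)⟩
  set T : E →L[ℝ] E := (R.P A).comp (D.comp (R.P B)) with hT
  have hTf : ∀ g, T g = R.P A (D (R.P B g)) := fun g => rfl
  have key : ∀ g, T g = R.M (A.indicator fun ω => ((r ω)⁻¹ : ℂ))
      (T (R.M (B.indicator fun ω => (r ω : ℂ)) g)) := by
    intro g
    have e1 : R.P B (R.M (B.indicator fun ω => (r ω : ℂ)) g)
        = R.M (B.indicator fun ω => (r ω : ℂ)) g := by
      rw [R.M_mul_ind hB hbB]
      congr 2
      ext ω; by_cases h : ω ∈ B <;> simp [h]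
    rw [hTf, hTf, e1, ← hint, ← R.mul hbQ hbA, P]
    congr 2
    ext ω
    by_cases h : ω ∈ A
    · have : (r ω : ℂ) ≠ 0 := by exact_mod_cast (hs.trans_le (hrA ω h)).ne'
      simp [h, this]
    · simp [h]
  have hle : ‖T‖ ≤ (t / s) * ‖T‖ := by
    refine T.opNorm_le_bound (by positivity) fun g => ?_
    rw [key g]
    have n1 := R.norm_le hbQ (C := s⁻¹) (fun ω => by
      by_cases h : ω ∈ A
      · rw [Set.indicator_of_mem h, norm_inv, Complex.norm_real, Real.norm_eq_abs,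
          abs_of_nonneg (hs.le.trans (hrA ω h))]
        exact inv_anti₀ hs (hrA ω h)
      · rw [Set.indicator_of_notMem h, norm_zero]; positivity) (by positivity)
      (T (R.M (B.indicator fun ω => (r ω : ℂ)) g))
    have n2 := R.norm_le hbB (C := t) (fun ω => by
      by_cases h : ω ∈ B
      · rw [Set.indicator_of_mem h, Complex.norm_real, Real.norm_eq_abs,
          abs_of_nonneg (hrB ω h).1]
        exact (hrB ω h).2
      · rw [Set.indicator_of_notMem h, norm_zero]; exact ht) ht g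
    have n3 := T.le_opNorm (R.M (B.indicator fun ω => (r ω : ℂ)) g)
    calc _ ≤ s⁻¹ * ‖T (R.M (B.indicator fun ω => (r ω : ℂ)) g)‖ := n1
      _ ≤ s⁻¹ * (‖T‖ * (t * ‖g‖)) := by
          gcongr
          exact n3.trans (mul_le_mul_of_nonneg_left n2 (norm_nonneg _))
      _ = t / s * ‖T‖ * ‖g‖ := by rw [div_eq_mul_inv]; ring
  have hT0 : ‖T‖ = 0 := by
    have h1 : t / s < 1 := by rw [div_lt_one hs]; exact hts
    have h2 := norm_nonneg T
    nlinarith
  have : T = 0 := norm_eq_zero.mp hT0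
  rw [← hTf, this]; rfl

/-- The duality map on the multiples of `x`. -/
theorem Pack.dual [TopologicalSpace.SeparableSpace E] {x : E} {ψ : E →L[ℝ] ℝ} {m : Measure Ω}
    (h : Pack R x ψ m) {w : Ω → ℝ} (hw : Measurable w) {δ C : ℝ} (hδ : 0 < δ)
    (hw1 : ∀ ω, δ ≤ w ω) (hw2 : ∀ ω, w ω ≤ C) :
    ∃ (κ : ℝ) (φ : E →L[ℝ] ℝ), Norming (R.M (fun ω => (w ω : ℂ)) x) φ ∧
      ∀ v : Ω → ℂ, BM v → φ (R.M v x) = κ * ∫ ω, w ω * (v ω).re ∂m := by
  have hfin := h.fin
  have hw0 : ∀ ω, 0 < w ω := fun ω => hδ.trans_le (hw1 ω)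
  have hwne : ∀ ω, (w ω : ℂ) ≠ 0 := fun ω => by exact_mod_cast (hw0 ω).ne'
  have hbW : BM (fun ω => (w ω : ℂ)) := BM.ofReal hw (C := C) (fun ω => by
    rw [abs_of_pos (hw0 ω)]; exact hw2 ω)
  have hbWi : BM (fun ω => ((w ω)⁻¹ : ℂ)) := by
    refine ⟨(Complex.measurable_ofReal.comp hw).inv, δ⁻¹, fun ω => ?_⟩
    rw [norm_inv, Complex.norm_real, Real.norm_eq_abs, abs_of_pos (hw0 ω)]
    exact inv_anti₀ hδ (hw1 ω)
  set z := R.M (fun ω => (w ω : ℂ)) x with hz
  obtain ⟨φ, hφ⟩ := exists_norming z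
  obtain ⟨mz, hmzfin, hmzreal, hmzint⟩ := R.exists_measure hφ
  have hMz : ∀ v : Ω → ℂ, BM v → R.M (fun ω => v ω * ((w ω)⁻¹ : ℂ)) z = R.M v x := by
    intro v hv
    have hb : BM (fun ω => v ω * ((w ω)⁻¹ : ℂ)) := hv.mul hbWi
    rw [hz, ← R.mul hb hbW]
    congr 2
    ext ω
    simp [hwne ω]
  have hac : mz ≪ m := by
    refine Measure.AbsolutelyContinuous.mk fun A hA hA0 => ?_
    have h1 : mz.real A = 0 := by rw [hmzreal A hA, h.full hA hA0, map_zero]
    exact (measureReal_eq_zero_iff).mp h1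
  set ρ : Ω → ℝ := fun ω => (mz.rnDeriv m ω).toReal with hρ
  have hρm : Measurable ρ := (Measure.measurable_rnDeriv mz m).ennreal_toReal
  have hρ0 : ∀ ω, 0 ≤ ρ ω := fun ω => ENNReal.toReal_nonneg
  have hint : ∀ g : Ω → ℝ, ∫ ω, g ω ∂mz = ∫ ω, ρ ω * g ω ∂m := fun g =>
    (integral_toReal_rnDeriv_mul hac).symm
  set r : Ω → ℝ := fun ω => ρ ω / (w ω) ^ 2 with hr
  have hrm : Measurable r := hρm.div (hw.pow_const 2)
  have hr0 : ∀ ω, 0 ≤ r ω := fun ω => div_nonneg (hρ0 ω) (sq_nonneg _)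
  have hρrm : Measurable (fun ω => (ρ ω : ℂ)) := Complex.measurable_ofReal.comp hρm
  have hrrm : Measurable (fun ω => (r ω : ℂ)) := Complex.measurable_ofReal.comp hrm
  set Ev : ℕ → Set Ω := fun n => {ω | ρ ω ≤ n} with hEv
  have hEvm : ∀ n, MeasurableSet (Ev n) := fun n => measurableSet_le hρm measurable_const
  have hEvmono : Monotone Ev := by
    intro i j hij ω hω
    exact le_trans (show ρ ω ≤ i from hω) (Nat.cast_le.mpr hij)
  have hEvU : ∀ ω, ∃ n, ω ∈ Ev n := fun ω => exists_nat_ge (ρ ω)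
  have hrbd : ∀ n, ∀ ω ∈ Ev n, r ω ≤ n / δ ^ 2 := by
    intro n ω hω
    have h1 : ρ ω ≤ n := hω
    have h2 : δ ^ 2 ≤ (w ω) ^ 2 := pow_le_pow_left₀ hδ.le (hw1 ω) 2
    exact div_le_div₀ (by positivity) h1 (by positivity) h2
  -- Claim A
  have claimA : ∀ (n : ℕ) (A : Set Ω), MeasurableSet A → A ⊆ Ev n → ∀ c : Ω → ℂ, BM c → ∀ f : E,
      φ (R.M (A.indicator c) f) = ψ (R.M (A.indicator fun ω => c ω * (ρ ω : ℂ) * (w ω : ℂ)⁻¹) f) := by
    intro n A hA hAE c hc f
    have hb2 : BM (A.indicator fun ω => c ω * (ρ ω : ℂ) * (w ω : ℂ)⁻¹) := by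
      obtain ⟨hc1, K, hK⟩ := hc
      refine bm_of_bdd ((hc1.mul hρrm).mul (Complex.measurable_ofReal.comp hw).inv) hA
        ⟨K * n * δ⁻¹, fun ω hω => ?_⟩
      have hK0 : 0 ≤ K := (norm_nonneg _).trans (hK ω)
      change ‖c ω * (ρ ω : ℂ) * ((w ω : ℂ))⁻¹‖ ≤ _
      rw [norm_mul, norm_mul, norm_inv, Complex.norm_real, Complex.norm_real, Real.norm_eq_abs,
        Real.norm_eq_abs, abs_of_nonneg (hρ0 ω), abs_of_pos (hw0 ω)]
      exact mul_le_mul (mul_le_mul (hK ω) (hAE hω) (hρ0 ω) hK0) (inv_anti₀ hδ (hw1 ω))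
        (inv_nonneg.mpr (hw0 ω).le) (by positivity)
    refine h.unit.ext (S := fun f => φ (R.M (A.indicator c) f))
      (T := fun f => ψ (R.M (A.indicator fun ω => c ω * (ρ ω : ℂ) * (w ω : ℂ)⁻¹) f))
      (φ.continuous.comp (R.M _).continuous) (ψ.continuous.comp (R.M _).continuous) ?_ f
    intro b hb
    rw [← R.mul (hc.indicator hA) hb, ← hMz _ ((hc.indicator hA).mul hb),
      hmzint (fun ω => (A.indicator c * b) ω * ((w ω)⁻¹ : ℂ)) (((hc.indicator hA).mul hb).mul hbWi),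
      hint, ← R.mul hb2 hb,
      h.int _ (hb2.mul hb)]
    refine integral_congr_ae (Eventually.of_forall fun ω => ?_)
    simp only [Pi.mul_apply]
    by_cases hω : ω ∈ A
    · simp only [Set.indicator_of_mem hω]
      have : c ω * (ρ ω : ℂ) * (w ω : ℂ)⁻¹ * b ω = (ρ ω : ℂ) * (c ω * b ω * (w ω : ℂ)⁻¹) := by ring
      rw [this, Complex.re_ofReal_mul]
    · simp [hω]
  -- Claim B
  have claimB : ∀ D : E →L[ℝ] E, Skew D → ∀ (n : ℕ) (A B : Set Ω), MeasurableSet A →
      MeasurableSet B → A ⊆ Ev n → B ⊆ Ev n → Disjoint A B → ∀ a b : Ω → ℂ, BM a → BM b →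
      ψ (R.M (A.indicator fun ω => conj (a ω) * (r ω : ℂ)) (D (R.M (B.indicator b) x)))
        = ψ (R.M (A.indicator fun ω => conj (a ω)) (D (R.M (B.indicator fun ω => b ω * (r ω : ℂ)) x))) := by
    intro D hD n A B hA hB hAE hBE hAB a b ha hb
    have conj_ind : ∀ (S : Set Ω) (g : Ω → ℂ), (fun ω => conj (S.indicator g ω))
        = S.indicator fun ω => conj (g ω) := by
      intro S g; ext ω; by_cases hω : ω ∈ S <;> simp [hω]
    have haW : BM (fun ω => a ω * ((w ω)⁻¹ : ℂ)) := ha.mul hbWi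
    have hbWW : BM (fun ω => b ω * ((w ω)⁻¹ : ℂ)) := hb.mul hbWi
    have h1 := R.anti hD hφ hA hB hAB haW hbWW
    have hind : ∀ (S : Set Ω) (g : Ω → ℂ), MeasurableSet S → BM g →
        R.M (S.indicator fun ω => g ω * ((w ω)⁻¹ : ℂ)) z = R.M (S.indicator g) x := by
      intro S g hS hg
      rw [← hMz _ (hg.indicator hS)]
      congr 2
      ext ω; by_cases hω : ω ∈ S <;> simp [hω]
    have hind2 : ∀ (S : Set Ω) (g : Ω → ℂ) (v : E), MeasurableSet S → S ⊆ Ev n → BM g →
        φ (R.M (S.indicator fun ω => conj (g ω * ((w ω)⁻¹ : ℂ))) v)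
          = ψ (R.M (S.indicator fun ω => conj (g ω) * (r ω : ℂ)) v) := by
      intro S g v hS hSE hg
      have e1 : (fun ω => conj (g ω * ((w ω)⁻¹ : ℂ))) = fun ω => conj (g ω) * ((w ω)⁻¹ : ℂ) := by
        ext ω; simp
      have e2 := claimA n S hS hSE (fun ω => conj (g ω) * ((w ω)⁻¹ : ℂ)) (hg.conj.mul hbWi) v
      rw [e1, e2]
      congr 3
      ext ω
      by_cases hω : ω ∈ S
      · simp only [hr, Set.indicator_of_mem hω]
        push_cast
        have := hwne ω
        field_simp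
      · simp only [Set.indicator_of_notMem hω]
    simp only [beta, conj_ind] at h1
    rw [hind A a hA ha, hind B b hB hb, hind2 A a _ hA hAE ha, hind2 B b _ hB hBE hb] at h1
    have hbr : BM (B.indicator fun ω => b ω * (r ω : ℂ)) := by
      obtain ⟨hb1, K, hK⟩ := hb
      refine bm_of_bdd (hb1.mul hrrm) hB ⟨K * (n / δ ^ 2), fun ω hω => ?_⟩
      change ‖b ω * (r ω : ℂ)‖ ≤ _
      rw [norm_mul, Complex.norm_real, Real.norm_eq_abs, abs_of_nonneg (hr0 ω)]
      exact mul_le_mul (hK ω) (hrbd n ω (hBE hω)) (hr0 ω) ((norm_nonneg _).trans (hK ω))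
    have h2 := R.anti hD h.norming hA hB hAB ha hbr
    simp only [beta, conj_ind, Set.indicator_indicator, Set.inter_self] at h2
    have e3 : (fun ω => conj (b ω * (r ω : ℂ))) = fun ω => conj (b ω) * (r ω : ℂ) := by
      ext ω; simp
    rw [e3] at h2
    linarith
  -- Claim C
  have claimC : ∀ D : E →L[ℝ] E, Skew D → ∀ (n : ℕ) (A B : Set Ω), MeasurableSet A →
      MeasurableSet B → A ⊆ Ev n → B ⊆ Ev n → ∀ s t : ℝ, 0 ≤ t → t < s → (∀ ω ∈ A, s ≤ r ω) →
      (∀ ω ∈ B, r ω ≤ t) → ∀ f, R.P A (D (R.P B f)) = 0 := by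
    intro D hD n A B hA hB hAE hBE s t ht hts hAs hBt
    have hAB : Disjoint A B := by
      rw [Set.disjoint_left]
      intro ω h1 h2
      have := hAs ω h1; have := hBt ω h2; linarith
    refine corner_zero hrm hA hB ht hts hAs (fun ω hω => hrbd n ω (hAE hω))
      (fun ω hω => ⟨hr0 ω, hBt ω hω⟩) D ?_
    have hbA : BM (A.indicator fun ω => (r ω : ℂ)) := bm_of_bdd hrrm hA ⟨n / δ ^ 2, fun ω hω => by
      rw [Complex.norm_real, Real.norm_eq_abs, abs_of_nonneg (hr0 ω)]
      exact hrbd n ω (hAE hω)⟩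
    have hbB : BM (B.indicator fun ω => (r ω : ℂ)) := bm_of_bdd hrrm hB ⟨n / δ ^ 2, fun ω hω => by
      rw [Complex.norm_real, Real.norm_eq_abs, abs_of_nonneg (hr0 ω)]
      exact hrbd n ω (hBE hω)⟩
    intro f
    refine h.unit.ext (S := fun f => R.M (A.indicator fun ω => (r ω : ℂ)) (D (R.P B f)))
      (T := fun f => R.P A (D (R.M (B.indicator fun ω => (r ω : ℂ)) f)))
      ((R.M _).continuous.comp (D.continuous.comp (R.P B).continuous))
      ((R.P A).continuous.comp (D.continuous.comp (R.M _).continuous)) ?_ f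
    intro b hb
    rw [← sub_eq_zero]
    refine h.faithful MeasurableSet.univ (fun S hS _ hS0 => h.full hS hS0 x) (R.P_univ _) ?_
    intro a ha
    have e1 := claimB D hD n A B hA hB hAE hBE hAB (fun ω => conj (a ω)) b ha.conj hb
    simp only [Complex.conj_conj] at e1
    rw [map_sub, map_sub, sub_eq_zero]
    have e2 : R.M a (R.M (A.indicator fun ω => (r ω : ℂ)) (D (R.P B (R.M b x))))
        = R.M (A.indicator fun ω => a ω * (r ω : ℂ)) (D (R.M (B.indicator b) x)) := by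
      rw [← R.mul ha hbA, R.M_mul_ind hB hb]
      congr 2
      ext ω; by_cases hω : ω ∈ A <;> simp [hω]
    have e3 : R.M a (R.P A (D (R.M (B.indicator fun ω => (r ω : ℂ)) (R.M b x))))
        = R.M (A.indicator fun ω => a ω) (D (R.M (B.indicator fun ω => b ω * (r ω : ℂ)) x)) := by
      rw [R.M_mul_ind' hA ha, ← R.mul hbB hb]
      congr 4
      ext ω; by_cases hω : ω ∈ B <;> simp [hω, mul_comm]
    rw [e2, e3, e1]
  -- Claim D
  have claimD : ∀ D : E →L[ℝ] E, Skew D → ∀ t : ℝ, 0 ≤ t → ∀ f,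
      R.P {ω | r ω ≤ t}ᶜ (D (R.P {ω | r ω ≤ t} f)) = 0 := by
    intro D hD t ht f
    have hNm : MeasurableSet {ω | r ω ≤ t} := measurableSet_le hrm measurable_const
    have step1 : ∀ (k : ℕ), R.P ({ω | t + 1 / ((k : ℝ) + 1) ≤ r ω} ∩ Ev k)
        (D (R.P {ω | r ω ≤ t} f)) = 0 := by
      intro k
      have hAm : MeasurableSet {ω | t + 1 / ((k : ℝ) + 1) ≤ r ω} :=
        measurableSet_le measurable_const hrm
      have hk : (0 : ℝ) < 1 / ((k : ℝ) + 1) := by positivity
      have h1 := R.tendsto_mono (fun n => {ω | r ω ≤ t} ∩ Ev n) (fun n => hNm.inter (hEvm n))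
        (fun i j hij => Set.inter_subset_inter_right _ (hEvmono hij)) hNm (by
          ext ω
          simp only [Set.mem_iUnion, Set.mem_inter_iff]
          exact ⟨fun ⟨n, h1, _⟩ => h1, fun h1 => (hEvU ω).imp fun n hn => ⟨h1, hn⟩⟩) f
      have h2 := (((R.P ({ω | t + 1 / ((k : ℝ) + 1) ≤ r ω} ∩ Ev k)).continuous.comp
        D.continuous).tendsto _).comp h1
      refine tendsto_nhds_unique h2 ?_
      refine tendsto_const_nhds.congr' ?_
      filter_upwards [eventually_ge_atTop k] with n hn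
      simp only [Function.comp]
      refine (claimC D hD n _ _ (hAm.inter (hEvm k)) (hNm.inter (hEvm n))
        (Set.inter_subset_right.trans (hEvmono hn)) Set.inter_subset_right
        (t + 1 / ((k : ℝ) + 1)) t ht (by linarith) (fun ω hω => hω.1) (fun ω hω => hω.1) f).symm
    have h3 := R.tendsto_mono (fun k : ℕ => {ω | t + 1 / ((k : ℝ) + 1) ≤ r ω} ∩ Ev k)
      (fun k => (measurableSet_le measurable_const hrm).inter (hEvm k)) (by
        intro i j hij ω hω
        refine ⟨?_, hEvmono hij hω.2⟩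
        refine le_trans ?_ (show t + 1 / ((i : ℝ) + 1) ≤ r ω from hω.1)
        have : 1 / ((j : ℝ) + 1) ≤ 1 / ((i : ℝ) + 1) := by
          apply one_div_le_one_div_of_le (by positivity)
          have : (i : ℝ) ≤ j := Nat.cast_le.mpr hij
          linarith
        simpa using this) (B := {ω | r ω ≤ t}ᶜ) hNm.compl (by
        ext ω
        simp only [Set.mem_iUnion, Set.mem_inter_iff, Set.mem_compl_iff, Set.mem_ofPred_eq, not_le]
        constructor
        · rintro ⟨k, h1, -⟩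
          have hk : (0 : ℝ) < 1 / ((k : ℝ) + 1) := by positivity
          linarith
        · intro h1
          obtain ⟨k, hk⟩ := exists_nat_one_div_lt (sub_pos.mpr h1)
          obtain ⟨n, hn⟩ := hEvU ω
          refine ⟨max k n, ?_, hEvmono (le_max_right _ _) hn⟩
          have : 1 / (((max k n : ℕ) : ℝ) + 1) ≤ 1 / ((k : ℝ) + 1) := by
            apply one_div_le_one_div_of_le (by positivity)
            have : (k : ℝ) ≤ (max k n : ℕ) := Nat.cast_le.mpr (le_max_left _ _)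
            linarith
          linarith) (D (R.P {ω | r ω ≤ t} f))
    refine tendsto_nhds_unique h3 ?_
    simp_rw [step1]
    exact tendsto_const_nhds
  -- Claim E: r is constant
  have claimE : ∃ κ, r =ᵐ[m] Function.const Ω κ := by
    have hsep : HasCountableSeparatingOn ℝ (· ∈ Set.range Set.Iic) Set.univ := inferInstance
    refine Filter.exists_eventuallyEq_const_of_forall_separating (· ∈ Set.range Set.Iic) ?_
    rintro _ ⟨t, rfl⟩
    by_cases ht : 0 ≤ t
    · have hNm : MeasurableSet {ω | r ω ≤ t} := measurableSet_le hrm measurable_const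
      have h1 := h.irr {ω | r ω ≤ t} hNm (fun D hD => Skew.comm_P hD hNm (claimD D hD t ht))
      rcases h1 with h1 | h1
      · right
        have h2 : m.real {ω | r ω ≤ t} = 0 := by rw [h.real _ hNm, h1, map_zero]
        have h3 : m {ω | r ω ≤ t} = 0 := (measureReal_eq_zero_iff).mp h2
        exact measure_eq_zero_iff_ae_notMem.mp h3
      · left
        have h2 : m.real {ω | r ω ≤ t}ᶜ = 0 := by
          rw [h.real _ hNm.compl, R.P_compl' hNm, h1, sub_self, map_zero]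
        have h3 : m {ω | r ω ≤ t}ᶜ = 0 := (measureReal_eq_zero_iff).mp h2
        have h4 := measure_eq_zero_iff_ae_notMem.mp h3
        filter_upwards [h4] with ω hω
        simpa using hω
    · right
      refine Eventually.of_forall fun ω hω => ht ((hr0 ω).trans hω)
  obtain ⟨κ, hκ⟩ := claimE
  refine ⟨κ, φ, hφ, fun v hv => ?_⟩
  rw [← hMz v hv, hmzint (fun ω => v ω * ((w ω)⁻¹ : ℂ)) (hv.mul hbWi), hint,
    ← integral_const_mul]
  refine integral_congr_ae ?_
  filter_upwards [hκ] with ω hω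
  have hω' : ρ ω = κ * (w ω) ^ 2 := by
    have : r ω = κ := hω
    rw [← this, hr]
    have := (hw0 ω).ne'
    field_simp
  have e1 : (v ω * ((w ω)⁻¹ : ℂ)).re = (v ω).re * (w ω)⁻¹ := by
    rw [← Complex.ofReal_inv, Complex.re_mul_ofReal]
  rw [e1, hω']
  have := (hw0 ω).ne'
  field_simp

end Act
end Pool.Agent.Helper60.Rot
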