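import Pool.Agent.Helper60.Rot.Irr

set_option autoImplicit false
set_option linter.unusedSectionVars false

open MeasureTheory Filter Topology
open scoped ComplexConjugate ENNReal

namespace Pool.Agent.Helper60.Rot
namespace Act

variable {Ω : Type*} [MeasurableSpace Ω] {E : Type*} [NormedAddCommGroup E] [NormedSpace ℝ E]
variable {R : Act Ω E}

/-- the standing package: a generating vector, norming functional and its measure, irreducible. -/
structure Pack (R : Act Ω E) (x : E) (ψ : E →L[ℝ] ℝ) (m : Measure Ω) : Prop where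
  unit : R.IsUnit x
  norm_one : ‖x‖ = 1
  norming : Norming x ψ
  fin : IsFiniteMeasure m
  real : ∀ A, MeasurableSet A → m.real A = ψ (R.P A x)
  int : ∀ c : Ω → ℂ, BM c → ψ (R.M c x) = ∫ ω, (c ω).re ∂m
  irr : ∀ B : Set Ω, MeasurableSet B →
    (∀ D : E →L[ℝ] E, Skew D → ∀ f, R.P B (D f) = D (R.P B f)) →
    (∀ f, R.P B f = 0) ∨ (∀ f, R.P B f = f)

/-- faithfulness -/
lemma Pack.faithful {x : E} {ψ : E →L[ℝ] ℝ} {m : Measure Ω} (h : Pack R x ψ m) {S : Set Ω}
    (hS : MeasurableSet S) (hnull : ∀ C, MeasurableSet C → C ⊆ S → m C = 0 → R.P C x = 0)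
    {v : E} (hv : R.P S v = v) (hz : ∀ a : Ω → ℂ, BM a → ψ (R.M a v) = 0) : v = 0 := by
  have := h.fin
  obtain ⟨g, hg, h1, h2⟩ := h.unit.approx v
  have key : ∀ n : ℕ, R.M ({ω | ‖g ω‖ ≤ n}.indicator g) x = 0 := by
    intro n
    set A := {ω | ‖g ω‖ ≤ n} with hA
    have hAm : MeasurableSet A := sub_meas hg n
    have hb : BM (A.indicator g) := bm_sub hg n
    have e1 : ψ (R.M (fun ω => conj (A.indicator g ω)) (R.M (A.indicator g) x)) = 0 := by
      rw [← h1 n, R.M_comm_P hAm hb.conj, R.M_mul_ind hAm hb.conj]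
      exact hz _ (hb.conj.indicator hAm)
    rw [← R.mul hb.conj hb, h.int _ (hb.conj.mul hb)] at e1
    have e2 : ∀ ω, (((fun ω => conj (A.indicator g ω)) * A.indicator g) ω).re
        = ‖A.indicator g ω‖ ^ 2 := by
      intro ω
      rw [Pi.mul_apply, ← Complex.normSq_eq_conj_mul_self, Complex.ofReal_re,
        Complex.normSq_eq_norm_sq]
    simp_rw [e2] at e1
    have hint : Integrable (fun ω => ‖A.indicator g ω‖ ^ 2) m := by
      obtain ⟨hb1, C, hC⟩ := hb
      refine Integrable.of_bound (hb1.norm.pow_const 2).aestronglyMeasurable (C ^ 2) ?_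
      refine Eventually.of_forall fun ω => ?_
      rw [Real.norm_eq_abs, abs_of_nonneg (by positivity)]
      exact pow_le_pow_left₀ (norm_nonneg _) (hC ω) 2
    have e3 := (integral_eq_zero_iff_of_nonneg (fun ω => by positivity) hint).mp e1
    set C := {ω | A.indicator g ω ≠ 0} with hC
    have hCm : MeasurableSet C := hb.1 (measurableSet_singleton (0 : ℂ)).compl
    have e4 : m C = 0 := by
      have : ∀ᵐ ω ∂m, ω ∉ C := by
        filter_upwards [e3] with ω hω hc
        apply hc
        simpa using hω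
      exact measure_eq_zero_iff_ae_notMem.mpr this
    have e5 : R.P (C ∩ S) x = 0 := hnull _ (hCm.inter hS) Set.inter_subset_right
      (measure_mono_null Set.inter_subset_left e4)
    have e6 : R.M (A.indicator g) x = R.P S (R.M (A.indicator g) x) := by
      rw [← h1 n, R.P_P hS hAm, Set.inter_comm, ← R.P_P hAm hS, hv]
    have e7 : R.P S (R.M (A.indicator g) x) = R.M (A.indicator g) (R.P (C ∩ S) x) := by
      rw [R.M_mul_ind hS hb, R.M_mul_ind' (hCm.inter hS) hb]
      congr 2
      ext ω
      by_cases hω : ω ∈ S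
      · by_cases hc : ω ∈ C
        · rw [Set.indicator_of_mem hω, Set.indicator_of_mem (show ω ∈ C ∩ S from ⟨hc, hω⟩)]
        · have hc' : ω ∉ C ∩ S := fun h => hc h.1
          rw [Set.indicator_of_mem hω, Set.indicator_of_notMem hc']
          by_contra h0; exact hc h0
      · have hc' : ω ∉ C ∩ S := fun h => hω h.2
        rw [Set.indicator_of_notMem hω, Set.indicator_of_notMem hc']
    rw [e6, e7, e5, map_zero]
  refine tendsto_nhds_unique h2 ?_
  simp_rw [key]
  exact tendsto_const_nhds

lemma Pack.m_univ {x : E} {ψ : E →L[ℝ] ℝ} {m : Measure Ω} (h : Pack R x ψ m) :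
    m.real Set.univ = 1 := by
  rw [h.real _ MeasurableSet.univ, R.P_univ, h.norming.2, h.norm_one]

/-- full support of the measure -/
theorem Pack.full [TopologicalSpace.SeparableSpace E] {x : E} {ψ : E →L[ℝ] ℝ} {m : Measure Ω}
    (h : Pack R x ψ m) {A : Set Ω} (hA : MeasurableSet A) (h0 : m A = 0) (f : E) :
    R.P A f = 0 := by
  have := h.fin
  -- an exhausting null set
  set N : Set E := {v | ∃ C : Set Ω, MeasurableSet C ∧ m C = 0 ∧ v = R.P C x} with hN
  have hNne : N.Nonempty := ⟨R.P ∅ x, ∅, MeasurableSet.empty, measure_empty, rfl⟩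
  have hsep : TopologicalSpace.IsSeparable N := TopologicalSpace.IsSeparable.of_separableSpace N
  obtain ⟨c, hcN, hcc, hcd⟩ := hsep.exists_countable_dense_subset
  have hcne : c.Nonempty := by
    by_contra hne
    rw [Set.not_nonempty_iff_eq_empty] at hne
    rw [hne, closure_empty] at hcd
    exact (hcd hNne.some_mem).elim
  obtain ⟨e, he⟩ := hcc.exists_eq_range hcne
  have hch : ∀ k : ℕ, ∃ C : Set Ω, MeasurableSet C ∧ m C = 0 ∧ e k = R.P C x := by
    intro k
    exact hcN (by rw [he]; exact ⟨k, rfl⟩)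
  choose Ck hCk1 hCk2 hCk3 using hch
  set Z : Set Ω := ⋃ k, Ck k with hZ
  have hZm : MeasurableSet Z := MeasurableSet.iUnion hCk1
  have hZ0 : m Z = 0 := measure_iUnion_null hCk2
  have hnull : ∀ C, MeasurableSet C → C ⊆ Zᶜ → m C = 0 → R.P C x = 0 := by
    intro C hC hsub hC0
    have h1 : R.P C x ∈ closure c := hcd ⟨C, hC, hC0, rfl⟩
    have h2 : ∀ v ∈ closure c, R.P Zᶜ v = 0 := by
      intro v hv
      have hclosed : IsClosed {v : E | R.P Zᶜ v = 0} :=
        isClosed_eq (R.P Zᶜ).continuous continuous_const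
      refine hclosed.closure_subset_iff.mpr ?_ hv
      intro v hv
      rw [he] at hv
      obtain ⟨k, rfl⟩ := hv
      rw [Set.mem_ofPred_eq, hCk3]
      exact R.P_disj hZm.compl (hCk1 k) ((disjoint_compl_left).mono_right (Set.subset_iUnion Ck k)) x
    have h3 := h2 _ h1
    rw [R.P_P hZm.compl hC, Set.inter_eq_right.mpr hsub] at h3
    exact h3
  -- psi vanishes on the null band
  have hψZ : ∀ v, ψ (R.P Z v) = 0 := by
    intro v
    refine h.unit.ext (S := fun v => ψ (R.P Z v)) (T := fun _ => (0 : ℝ))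
      (ψ.continuous.comp (R.P Z).continuous) continuous_const ?_ v
    intro a ha
    rw [R.M_mul_ind hZm ha, h.int _ (ha.indicator hZm)]
    refine integral_eq_zero_of_ae ?_
    have : ∀ᵐ ω ∂m, ω ∉ Z := measure_eq_zero_iff_ae_notMem.mp hZ0
    filter_upwards [this] with ω hω
    simp [hω]
  -- commutation
  have hcomm : ∀ D : E →L[ℝ] E, Skew D → ∀ f, R.P Z (D f) = D (R.P Z f) := by
    intro D hD
    refine Skew.comm_P hD hZm ?_
    intro f
    refine h.unit.ext (S := fun f => R.P Zᶜ (D (R.P Z f))) (T := fun _ => (0 : E))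
      ((R.P Zᶜ).continuous.comp (D.continuous.comp (R.P Z).continuous)) continuous_const ?_ f
    intro a ha
    refine h.faithful hZm.compl hnull (by rw [R.P_P hZm.compl hZm.compl, Set.inter_self]) ?_
    intro b hb
    have h1 := R.anti hD h.norming hZm hZm.compl disjoint_compl_right ha hb.conj
    have h2 : R.beta D x ψ (Z.indicator a) (Zᶜ.indicator fun ω => conj (b ω)) = 0 := by
      rw [beta]
      have : (fun ω => conj (Z.indicator a ω)) = Z.indicator (fun ω => conj (a ω)) := by
        ext ω; by_cases hω : ω ∈ Z <;> simp [hω]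
      rw [this, ← R.M_mul_ind hZm ha.conj]
      exact hψZ _
    rw [h2, zero_add, beta] at h1
    have h3 : (fun ω => conj (Zᶜ.indicator (fun ω => conj (b ω)) ω)) = Zᶜ.indicator b := by
      ext ω; by_cases hω : ω ∈ Z <;> simp [hω]
    rw [h3, ← R.M_mul_ind hZm ha, ← R.M_mul_ind' hZm.compl hb] at h1
    exact h1
  rcases h.irr Z hZm hcomm with h1 | h1
  · have h2 : R.P A x = R.P (A ∩ Zᶜ) x := by
      rw [← R.P_P hA hZm.compl, R.P_compl' hZm, h1, sub_zero]
    have h3 : R.P A x = 0 := by
      rw [h2]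
      exact hnull _ (hA.inter hZm.compl) Set.inter_subset_right
        (measure_mono_null Set.inter_subset_left h0)
    exact h.unit.P_eq_zero hA h3 f
  · exfalso
    have h2 := hψZ x
    rw [h1, h.norming.2, h.norm_one] at h2
    exact one_ne_zero h2

end Act
end Pool.Agent.Helper60.Rot
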