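import Pool.Agent.Helper60.Rot.Dual

set_option autoImplicit false
set_option linter.unusedSectionVars false

open MeasureTheory Filter Topology
open scoped ComplexConjugate ENNReal

namespace Pool.Agent.Helper60.Rot
namespace Act

variable {Ω : Type*} [MeasurableSpace Ω] {E : Type*} [NormedAddCommGroup E] [NormedSpace ℝ E]
variable {R : Act Ω E}

lemma quad_const {h : ℝ → ℝ} {C : ℝ} (hC : ∀ s t, |h s - h t| ≤ C * (s - t) ^ 2) (s t : ℝ) :
    h s = h t := by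
  have hd : ∀ u, HasDerivAt h 0 u := by
    intro u
    rw [hasDerivAt_iff_isLittleO]
    simp only [smul_zero, sub_zero]
    have h1 : (fun x' => h x' - h u) =O[𝓝 u] fun x' => (x' - u) ^ 2 := by
      refine Asymptotics.IsBigO.of_bound C (Eventually.of_forall fun x' => ?_)
      rw [Real.norm_eq_abs, Real.norm_eq_abs, abs_of_nonneg (sq_nonneg (x' - u))]
      exact hC x' u
    refine h1.trans_isLittleO ?_
    have h2 : (fun x' : ℝ => (x' - u) ^ 2) =o[𝓝 u] fun x' => (x' - u) ^ 1 := by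
      have h3 : (fun y : ℝ => y ^ 2) =o[𝓝 0] fun y => y ^ 1 :=
        Asymptotics.isLittleO_pow_pow one_lt_two
      have h4 : Tendsto (fun x' : ℝ => x' - u) (𝓝 u) (𝓝 0) := by
        have := (continuous_id.sub continuous_const).tendsto (x := u) (f := fun x' : ℝ => x' - u)
        simpa using this
      exact h3.comp_tendsto h4
    simpa using h2
  exact is_const_of_deriv_eq_zero (fun u => (hd u).differentiableAt) (fun u => (hd u).deriv) s t

/-- norm inequality from the duality map -/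
lemma Pack.ineq [TopologicalSpace.SeparableSpace E] {x : E} {ψ : E →L[ℝ] ℝ} {m : Measure Ω}
    (h : Pack R x ψ m) {w v : Ω → ℝ} (hw : Measurable w) {δ C : ℝ} (hδ : 0 < δ)
    (hw1 : ∀ ω, δ ≤ w ω) (hw2 : ∀ ω, w ω ≤ C) (hv : Measurable v) {C' : ℝ}
    (hv1 : ∀ ω, |v ω| ≤ C') :
    ‖R.M (fun ω => (w ω : ℂ)) x‖ * ∫ ω, w ω * v ω ∂m
      ≤ ‖R.M (fun ω => (v ω : ℂ)) x‖ * ∫ ω, w ω ^ 2 ∂m := by
  obtain ⟨κ, φ, hφ, hint⟩ := h.dual hw hδ hw1 hw2
  have hw0 : ∀ ω, 0 < w ω := fun ω => hδ.trans_le (hw1 ω)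
  have e1 := hint _ (BM.ofReal hw (C := C) (fun ω => by rw [abs_of_pos (hw0 ω)]; exact hw2 ω))
  have e2 := hint _ (BM.ofReal hv hv1)
  simp only [Complex.ofReal_re] at e1 e2
  rw [hφ.2] at e1
  have e3 := hφ.le (R.M (fun ω => (v ω : ℂ)) x)
  rw [e2] at e3
  have e4 : ∫ ω, w ω * w ω ∂m = ∫ ω, w ω ^ 2 ∂m := by simp_rw [sq]
  rw [e4] at e1
  have e5 : 0 ≤ ∫ ω, w ω ^ 2 ∂m := integral_nonneg fun ω => sq_nonneg _
  calc ‖R.M (fun ω => (w ω : ℂ)) x‖ * ∫ ω, w ω * v ω ∂m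
      = (κ * ∫ ω, w ω * v ω ∂m) * ∫ ω, w ω ^ 2 ∂m := by rw [e1]; ring
    _ ≤ _ := mul_le_mul_of_nonneg_right e3 e5

lemma Pack.integrable [TopologicalSpace.SeparableSpace E] {x : E} {ψ : E →L[ℝ] ℝ} {m : Measure Ω}
    (h : Pack R x ψ m) {g : Ω → ℝ} (hg : Measurable g) {C : ℝ} (hC : ∀ ω, |g ω| ≤ C) :
    Integrable g m := by
  have := h.fin
  exact Integrable.of_bound hg.aestronglyMeasurable C
    (Eventually.of_forall fun ω => by simpa using hC ω)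

/-- quadratic closeness of the normalised norm -/
lemma Pack.close [TopologicalSpace.SeparableSpace E] {x : E} {ψ : E →L[ℝ] ℝ} {m : Measure Ω}
    (h : Pack R x ψ m) {u v : Ω → ℝ} (hu : Measurable u) (hv : Measurable v) {δ C B : ℝ}
    (hδ : 0 < δ) (hC : 0 ≤ C)
    (hu1 : ∀ ω, δ ≤ u ω) (hu2 : ∀ ω, u ω ≤ C) (hv1 : ∀ ω, δ ≤ v ω) (hv2 : ∀ ω, v ω ≤ C)
    (hB : ∀ ω, |u ω - v ω| ≤ B) :
    ‖R.M (fun ω => (u ω : ℂ)) x‖ / √(∫ ω, u ω ^ 2 ∂m)
      - ‖R.M (fun ω => (v ω : ℂ)) x‖ / √(∫ ω, v ω ^ 2 ∂m) ≤ C / (2 * δ ^ 3) * B ^ 2 := by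
  have hfin := h.fin
  have hu0 : ∀ ω, 0 < u ω := fun ω => hδ.trans_le (hu1 ω)
  have hv0 : ∀ ω, 0 < v ω := fun ω => hδ.trans_le (hv1 ω)
  have hua : ∀ ω, |u ω| ≤ C := fun ω => by rw [abs_of_pos (hu0 ω)]; exact hu2 ω
  have hva : ∀ ω, |v ω| ≤ C := fun ω => by rw [abs_of_pos (hv0 ω)]; exact hv2 ω
  have hB0 : 0 ≤ B := by
    by_contra hneg
    have : IsEmpty Ω := ⟨fun ω => hneg ((abs_nonneg _).trans (hB ω))⟩
    have h1 := h.m_univ
    rw [Set.univ_eq_empty_iff.mpr this] at h1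
    simp at h1
  have iu : Integrable (fun ω => u ω ^ 2) m := h.integrable (hu.pow_const 2) (C := C ^ 2) (fun ω => by
    rw [abs_pow]; exact pow_le_pow_left₀ (abs_nonneg _) (hua ω) 2)
  have iv : Integrable (fun ω => v ω ^ 2) m := h.integrable (hv.pow_const 2) (C := C ^ 2) (fun ω => by
    rw [abs_pow]; exact pow_le_pow_left₀ (abs_nonneg _) (hva ω) 2)
  have iuv : Integrable (fun ω => u ω * v ω) m := h.integrable (hu.mul hv) (C := C * C) (fun ω => by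
    rw [abs_mul]; exact mul_le_mul (hua ω) (hva ω) (abs_nonneg _) hC)
  set qu := ∫ ω, u ω ^ 2 ∂m with hqu
  set qv := ∫ ω, v ω ^ 2 ∂m with hqv
  set I := ∫ ω, u ω * v ω ∂m with hI
  have hlow : ∀ g : Ω → ℝ, (∀ ω, δ ≤ g ω) → Integrable (fun ω => g ω ^ 2) m →
      δ ^ 2 ≤ ∫ ω, g ω ^ 2 ∂m := by
    intro g hg hi
    have h1 : ∫ _ω : Ω, δ ^ 2 ∂m = δ ^ 2 := by
      rw [integral_const, h.m_univ, one_smul]
    rw [← h1]
    exact integral_mono (integrable_const _) hi fun ω => pow_le_pow_left₀ hδ.le (hg ω) 2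
  have hqu1 : δ ^ 2 ≤ qu := hlow u hu1 iu
  have hqv1 : δ ^ 2 ≤ qv := hlow v hv1 iv
  have hqu0 : 0 < qu := (by positivity : (0 : ℝ) < δ ^ 2).trans_le hqu1
  have hqv0 : 0 < qv := (by positivity : (0 : ℝ) < δ ^ 2).trans_le hqv1
  have hsu : 0 < √qu := Real.sqrt_pos.mpr hqu0
  have hsv : 0 < √qv := Real.sqrt_pos.mpr hqv0
  have hsu1 : δ ≤ √qu := Real.le_sqrt_of_sq_le hqu1
  have hsv1 : δ ≤ √qv := Real.le_sqrt_of_sq_le hqv1
  have hsq1 : √qu ^ 2 = qu := Real.sq_sqrt hqu0.le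
  have hsq2 : √qv ^ 2 = qv := Real.sq_sqrt hqv0.le
  have hdiff : qu + qv - 2 * I ≤ B ^ 2 := by
    have e1 : qu + qv - 2 * I = ∫ ω, (u ω - v ω) ^ 2 ∂m := by
      have e2 : (fun ω => (u ω - v ω) ^ 2) = fun ω => (u ω ^ 2 + v ω ^ 2) - 2 * (u ω * v ω) := by
        ext ω; ring
      have i1 : Integrable (fun ω => u ω ^ 2 + v ω ^ 2) m := iu.add iv
      rw [e2, integral_sub i1 (iuv.const_mul 2), integral_add iu iv, integral_const_mul]
    rw [e1]
    have e3 : ∫ _ω : Ω, B ^ 2 ∂m = B ^ 2 := by rw [integral_const, h.m_univ, one_smul]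
    rw [← e3]
    refine integral_mono (h.integrable ((hu.sub hv).pow_const 2) (C := B ^ 2) (fun ω => ?_))
      (integrable_const _) fun ω => ?_
    · rw [abs_pow]; exact pow_le_pow_left₀ (abs_nonneg _) (hB ω) 2
    · rw [← sq_abs]; exact pow_le_pow_left₀ (abs_nonneg _) (hB ω) 2
  have hineq := h.ineq hu hδ hu1 hu2 hv hva
  rw [← hI, ← hqu] at hineq
  set Nu := ‖R.M (fun ω => (u ω : ℂ)) x‖ with hNu
  set Nv := ‖R.M (fun ω => (v ω : ℂ)) x‖ with hNv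
  have hNu1 : Nu ≤ C := by
    have := R.norm_le (BM.ofReal hu hua) (C := C) (fun ω => by
      rw [Complex.norm_real]; exact hua ω) hC x
    rwa [h.norm_one, mul_one] at this
  have hNu0 : 0 ≤ Nu := norm_nonneg _
  -- main computation
  have h1 : Nu / √qu - Nv / √qv ≤ Nu / √qu * ((√qu * √qv - I) / (√qu * √qv)) := by
    have h2 : Nu * I / (√qu ^ 2 * √qv) ≤ Nv / √qv := by
      rw [div_le_div_iff₀ (by positivity) hsv, hsq1]
      nlinarith
    have h3 : Nu / √qu * ((√qu * √qv - I) / (√qu * √qv)) = Nu / √qu - Nu * I / (√qu ^ 2 * √qv) := by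
      field_simp
    rw [h3]; linarith
  refine h1.trans ?_
  have h4 : (√qu * √qv - I) / (√qu * √qv) ≤ B ^ 2 / (2 * δ ^ 2) := by
    have h5 : √qu * √qv - I ≤ B ^ 2 / 2 := by
      nlinarith [sq_nonneg (√qu - √qv)]
    have h6 : δ ^ 2 ≤ √qu * √qv := by
      rw [sq]; exact mul_le_mul hsu1 hsv1 hδ.le hsu.le
    calc (√qu * √qv - I) / (√qu * √qv) ≤ (B ^ 2 / 2) / (√qu * √qv) :=
          div_le_div_of_nonneg_right h5 (by positivity)
      _ ≤ (B ^ 2 / 2) / δ ^ 2 := div_le_div_of_nonneg_left (by positivity) (by positivity) h6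
      _ = B ^ 2 / (2 * δ ^ 2) := by ring
  have h7 : Nu / √qu ≤ C / δ := div_le_div₀ hC hNu1 hδ hsu1
  calc Nu / √qu * ((√qu * √qv - I) / (√qu * √qv))
      ≤ Nu / √qu * (B ^ 2 / (2 * δ ^ 2)) := mul_le_mul_of_nonneg_left h4 (by positivity)
    _ ≤ C / δ * (B ^ 2 / (2 * δ ^ 2)) := mul_le_mul_of_nonneg_right h7 (by positivity)
    _ = C / (2 * δ ^ 3) * B ^ 2 := by field_simp

/-- the norm on positive multiples of `x` -/
lemma Pack.norm_pos [TopologicalSpace.SeparableSpace E] {x : E} {ψ : E →L[ℝ] ℝ} {m : Measure Ω}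
    (h : Pack R x ψ m) {w : Ω → ℝ} (hw : Measurable w) {δ C : ℝ} (hδ : 0 < δ)
    (hw1 : ∀ ω, δ ≤ w ω) (hw2 : ∀ ω, w ω ≤ C) :
    ‖R.M (fun ω => (w ω : ℂ)) x‖ ^ 2 = ∫ ω, w ω ^ 2 ∂m := by
  have hfin := h.fin
  set δ' := min δ 1 with hδ'
  set C' := max C 1 with hC'
  have hδ'0 : 0 < δ' := lt_min hδ one_pos
  have hC'0 : 0 ≤ C' := zero_le_one.trans (le_max_right _ _)
  set σ : ℝ → ℝ := fun s => max 0 (min s 1) with hσ
  have hσ0 : ∀ s, 0 ≤ σ s := fun s => le_max_left _ _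
  have hσ1 : ∀ s, σ s ≤ 1 := fun s => max_le zero_le_one (min_le_right _ _)
  have hσL : ∀ s t, |σ s - σ t| ≤ |s - t| := by
    intro s t
    have e1 := abs_max_sub_max_le_max 0 (min s 1) 0 (min t 1)
    have e2 := abs_min_sub_min_le_max s 1 t 1
    refine e1.trans ?_
    rw [sub_self, abs_zero] at *
    exact max_le (abs_nonneg _) (e2.trans (max_le le_rfl (abs_nonneg _)))
  set W : ℝ → Ω → ℝ := fun s ω => 1 + σ s * (w ω - 1) with hW
  have hWm : ∀ s, Measurable (W s) := fun s => measurable_const.add ((hw.sub_const 1).const_mul _)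
  have hW1 : ∀ s ω, δ' ≤ W s ω := by
    intro s ω
    have e1 : W s ω = (1 - σ s) * 1 + σ s * w ω := by simp only [hW]; ring
    rw [e1]
    have h1 : δ' ≤ 1 := min_le_right _ _
    have h2 : δ' ≤ w ω := (min_le_left _ _).trans (hw1 ω)
    nlinarith [hσ0 s, hσ1 s]
  have hW2 : ∀ s ω, W s ω ≤ C' := by
    intro s ω
    have e1 : W s ω = (1 - σ s) * 1 + σ s * w ω := by simp only [hW]; ring
    rw [e1]
    have h1 : 1 ≤ C' := le_max_right _ _
    have h2 : w ω ≤ C' := (hw2 ω).trans (le_max_left _ _)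
    nlinarith [hσ0 s, hσ1 s]
  have hWd : ∀ s t ω, |W s ω - W t ω| ≤ (C' + 1) * |s - t| := by
    intro s t ω
    have e1 : W s ω - W t ω = (σ s - σ t) * (w ω - 1) := by simp only [hW]; ring
    rw [e1, abs_mul, mul_comm]
    have h2 : |w ω - 1| ≤ C' + 1 := by
      rw [abs_le]
      have := hw1 ω
      have := (hw2 ω).trans (le_max_left C 1)
      constructor <;> linarith
    exact mul_le_mul h2 (hσL s t) (abs_nonneg _) (by linarith)
  set G : ℝ → ℝ := fun s => ‖R.M (fun ω => (W s ω : ℂ)) x‖ / √(∫ ω, W s ω ^ 2 ∂m) with hG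
  have hquad : ∀ s t, |G s - G t| ≤ (C' / (2 * δ' ^ 3) * (C' + 1) ^ 2) * (s - t) ^ 2 := by
    intro s t
    have h1 := h.close (hWm s) (hWm t) hδ'0 hC'0 (hW1 s) (hW2 s) (hW1 t) (hW2 t) (hWd s t)
    have h2 := h.close (hWm t) (hWm s) hδ'0 hC'0 (hW1 t) (hW2 t) (hW1 s) (hW2 s) (hWd t s)
    have e1 : ((C' + 1) * |s - t|) ^ 2 = (C' + 1) ^ 2 * (s - t) ^ 2 := by rw [mul_pow, sq_abs]
    have e2 : ((C' + 1) * |t - s|) ^ 2 = (C' + 1) ^ 2 * (s - t) ^ 2 := by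
      rw [abs_sub_comm, mul_pow, sq_abs]
    rw [e1] at h1
    rw [e2] at h2
    rw [abs_le]
    constructor
    · simp only [hG]; nlinarith
    · simp only [hG]; nlinarith
  have hG01 := quad_const hquad 1 0
  have hσ_1 : σ 1 = 1 := by simp [hσ]
  have hσ_0 : σ 0 = 0 := by simp [hσ]
  have hW_1 : W 1 = w := by ext ω; simp [hW, hσ_1]
  have hW_0 : W 0 = fun _ => 1 := by ext ω; simp [hW, hσ_0]
  have hG1 : G 0 = 1 := by
    simp only [hG, hW_0]
    have e1 : R.M (fun _ : Ω => ((1 : ℝ) : ℂ)) x = x := by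
      have : (fun _ : Ω => ((1 : ℝ) : ℂ)) = 1 := by ext ω; simp
      rw [this, R.one]
    have e2 : ∫ _ω : Ω, (1 : ℝ) ^ 2 ∂m = 1 := by
      rw [integral_const, h.m_univ]; simp
    rw [e1, e2, h.norm_one]; simp
  rw [hG1] at hG01
  simp only [hG, hW_1] at hG01
  have hq : 0 < ∫ ω, w ω ^ 2 ∂m := by
    by_contra hle
    have : √(∫ ω, w ω ^ 2 ∂m) = 0 := Real.sqrt_eq_zero'.mpr (not_lt.mp hle)
    rw [this, div_zero] at hG01
    exact zero_ne_one hG01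
  rw [div_eq_one_iff_eq (Real.sqrt_pos.mpr hq).ne'] at hG01
  rw [hG01, Real.sq_sqrt hq.le]

/-- the norm on all bounded multiples of `x` -/
lemma Pack.norm_sq [TopologicalSpace.SeparableSpace E] {x : E} {ψ : E →L[ℝ] ℝ} {m : Measure Ω}
    (h : Pack R x ψ m) {a : Ω → ℂ} (ha : BM a) : ‖R.M a x‖ ^ 2 = ∫ ω, ‖a ω‖ ^ 2 ∂m := by
  have hfin := h.fin
  obtain ⟨ha1, C, hC⟩ := ha
  set w : Ω → ℝ := fun ω => ‖a ω‖ with hw
  have hwm : Measurable w := ha1.norm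
  have hwC : ∀ ω, |w ω| ≤ C := fun ω => by rw [hw, abs_norm]; exact hC ω
  have hbw : BM (fun ω => (w ω : ℂ)) := BM.ofReal hwm hwC
  -- phase
  have hn : ‖R.M a x‖ = ‖R.M (fun ω => (w ω : ℂ)) x‖ := by
    set u : Ω → ℂ := fun ω => if a ω = 0 then 1 else a ω / (‖a ω‖ : ℂ) with hu
    have hum : Measurable u :=
      Measurable.ite (ha1 (measurableSet_singleton 0)) measurable_const
        (ha1.div (Complex.measurable_ofReal.comp ha1.norm))
    have hu1 : ∀ ω, ‖u ω‖ = 1 := by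
      intro ω
      by_cases h0 : a ω = 0
      · simp [hu, h0]
      · simp [hu, h0]
    have hbu : BM u := ⟨hum, 1, fun ω => (hu1 ω).le⟩
    have e1 : a = u * fun ω => (w ω : ℂ) := by
      ext ω
      by_cases h0 : a ω = 0
      · simp [hu, hw, h0]
      · have : (‖a ω‖ : ℂ) ≠ 0 := by exact_mod_cast (norm_pos_iff.mpr h0).ne'
        simp [hu, hw, h0]
    have e2 : (fun ω => (w ω : ℂ)) = (fun ω => conj (u ω)) * a := by
      rw [e1, ← mul_assoc, conj_mul_unimod hu1, one_mul]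
    refine le_antisymm ?_ ?_
    · conv_lhs => rw [e1]
      rw [R.mul hbu hbw]
      exact R.norm_M_unimod_le hum hu1 _
    · conv_lhs => rw [e2]
      rw [R.mul hbu.conj ⟨ha1, C, hC⟩]
      exact R.norm_M_unimod_le (Complex.continuous_conj.measurable.comp hum)
        (fun ω => by simp [hu1 ω]) _
  rw [hn]
  have iw : Integrable w m := h.integrable hwm hwC
  have iw2 : Integrable (fun ω => w ω ^ 2) m := h.integrable (hwm.pow_const 2) (C := C ^ 2)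
    (fun ω => by rw [abs_pow]; exact pow_le_pow_left₀ (abs_nonneg _) (hwC ω) 2)
  have key : ∀ ε : ℝ, 0 < ε → ‖R.M (fun ω => (w ω : ℂ)) x + ε • x‖ ^ 2
      = ∫ ω, w ω ^ 2 ∂m + 2 * ε * ∫ ω, w ω ∂m + ε ^ 2 := by
    intro ε hε
    have h1 := h.norm_pos (w := fun ω => w ω + ε) (hwm.add_const ε) hε
      (fun ω => by have : 0 ≤ w ω := norm_nonneg _; linarith) (C := C + ε)
      (fun ω => by have := (abs_le.mp (hwC ω)).2; linarith)
    have e1 : (fun ω => ((w ω + ε : ℝ) : ℂ)) = (fun ω => (w ω : ℂ)) + ε • (1 : Ω → ℂ) := by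
      ext ω; simp
    rw [e1, R.add hbw (BM.one.smul ε), R.smul ε BM.one] at h1
    have e2 : ((R.M fun ω => (w ω : ℂ)) + ε • R.M 1) x = R.M (fun ω => (w ω : ℂ)) x + ε • x := by
      simp [R.one]
    rw [e2] at h1
    rw [h1]
    have e3 : (fun ω => (w ω + ε) ^ 2) = fun ω => (w ω ^ 2 + 2 * ε * w ω) + ε ^ 2 := by
      ext ω; ring
    have i1 : Integrable (fun ω => 2 * ε * w ω) m := iw.const_mul _
    have i2 : Integrable (fun ω => w ω ^ 2 + 2 * ε * w ω) m := iw2.add i1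
    rw [e3, integral_add i2 (integrable_const _), integral_add iw2 i1, integral_const_mul,
      integral_const, h.m_univ, one_smul]
  have t1 : Tendsto (fun ε : ℝ => ‖R.M (fun ω => (w ω : ℂ)) x + ε • x‖ ^ 2) (𝓝[>] 0)
      (𝓝 (‖R.M (fun ω => (w ω : ℂ)) x‖ ^ 2)) := by
    have : Continuous (fun ε : ℝ => ‖R.M (fun ω => (w ω : ℂ)) x + ε • x‖ ^ 2) := by fun_prop
    have h2 := this.tendsto 0
    simp only [zero_smul, add_zero] at h2
    exact h2.mono_left nhdsWithin_le_nhds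
  have t2 : Tendsto (fun ε : ℝ => ∫ ω, w ω ^ 2 ∂m + 2 * ε * ∫ ω, w ω ∂m + ε ^ 2) (𝓝[>] 0)
      (𝓝 (∫ ω, w ω ^ 2 ∂m)) := by
    have : Continuous (fun ε : ℝ => ∫ ω, w ω ^ 2 ∂m + 2 * ε * ∫ ω, w ω ∂m + ε ^ 2) := by fun_prop
    have h2 := this.tendsto 0
    simp only [mul_zero, zero_mul, add_zero, ne_eq, OfNat.ofNat_ne_zero, not_false_eq_true,
      zero_pow] at h2
    exact h2.mono_left nhdsWithin_le_nhds
  refine tendsto_nhds_unique t1 (t2.congr' ?_)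
  filter_upwards [self_mem_nhdsWithin] with ε hε using (key ε hε).symm

theorem Pack.parallelogram [TopologicalSpace.SeparableSpace E] {x : E} {ψ : E →L[ℝ] ℝ}
    {m : Measure Ω} (h : Pack R x ψ m) (f g : E) :
    ‖f + g‖ ^ 2 + ‖f - g‖ ^ 2 = 2 * (‖f‖ ^ 2 + ‖g‖ ^ 2) := by
  have hfin := h.fin
  have hi : ∀ {a : Ω → ℂ}, BM a → Integrable (fun ω => ‖a ω‖ ^ 2) m := by
    rintro a ⟨ha1, C, hC⟩
    refine h.integrable (ha1.norm.pow_const 2) (C := C ^ 2) (fun ω => ?_)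
    rw [abs_pow, abs_norm]; exact pow_le_pow_left₀ (norm_nonneg _) (hC ω) 2
  have base : ∀ a b : Ω → ℂ, BM a → BM b → ‖R.M a x + R.M b x‖ ^ 2 + ‖R.M a x - R.M b x‖ ^ 2
      = 2 * (‖R.M a x‖ ^ 2 + ‖R.M b x‖ ^ 2) := by
    intro a b ha hb
    have e1 : R.M a x + R.M b x = R.M (a + b) x := by rw [R.add ha hb]; rfl
    have e2 : R.M a x - R.M b x = R.M (a + (-1 : ℝ) • b) x := by
      rw [R.add ha (hb.smul _), R.smul _ hb]
      simp [sub_eq_add_neg]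
    rw [e1, e2, h.norm_sq (ha.add hb), h.norm_sq (ha.add (hb.smul _)), h.norm_sq ha,
      h.norm_sq hb, ← integral_add (hi (ha.add hb)) (hi (ha.add (hb.smul _))),
      ← integral_add (hi ha) (hi hb), ← integral_const_mul]
    refine integral_congr_ae (Eventually.of_forall fun ω => ?_)
    have := parallelogram_law_with_norm ℝ (a ω) (b ω)
    have e3 : (a + (-1 : ℝ) • b) ω = a ω - b ω := by
      simp [sub_eq_add_neg]
    have e4 : (a + b) ω = a ω + b ω := rfl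
    simp only [e3, e4]
    linarith
  have s1 : ∀ b : Ω → ℂ, BM b → ∀ f, ‖f + R.M b x‖ ^ 2 + ‖f - R.M b x‖ ^ 2
      = 2 * (‖f‖ ^ 2 + ‖R.M b x‖ ^ 2) := by
    intro b hb f
    exact h.unit.ext (S := fun f => ‖f + R.M b x‖ ^ 2 + ‖f - R.M b x‖ ^ 2)
      (T := fun f => 2 * (‖f‖ ^ 2 + ‖R.M b x‖ ^ 2)) (by fun_prop) (by fun_prop)
      (fun a ha => base a b ha hb) f
  exact h.unit.ext (S := fun g => ‖f + g‖ ^ 2 + ‖f - g‖ ^ 2)
      (T := fun g => 2 * (‖f‖ ^ 2 + ‖g‖ ^ 2)) (by fun_prop) (by fun_prop)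
      (fun b hb => s1 b hb f) g

/-- The abstract theorem. -/
theorem parallelogram_of_transitive [TopologicalSpace.SeparableSpace E] (R : Act Ω E) {x : E}
    (hx : R.IsUnit x) (htr : ∀ y z : E, ‖y‖ = 1 → ‖z‖ = 1 → ∃ T : E ≃ₗᵢ[ℝ] E, T y = z) (f g : E) :
    ‖f + g‖ ^ 2 + ‖f - g‖ ^ 2 = 2 * (‖f‖ ^ 2 + ‖g‖ ^ 2) := by
  by_cases hx0 : x = 0
  · have hz : ∀ v : E, v = 0 := by
      intro v
      obtain ⟨g, -, h1, h2⟩ := hx.approx v
      rw [hx0] at h2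
      refine tendsto_nhds_unique h2 ?_
      simp only [map_zero]
      exact tendsto_const_nhds
    rw [hz f, hz g]; simp
  have hxn : 0 < ‖x‖ := norm_pos_iff.mpr hx0
  set y : E := ‖x‖⁻¹ • x with hy
  have hy1 : ‖y‖ = 1 := by rw [hy, norm_smul, norm_inv, norm_norm, inv_mul_cancel₀ hxn.ne']
  have hyu : R.IsUnit y := by
    intro f
    obtain ⟨g, hg, h1⟩ := hx f
    refine ⟨fun ω => (‖x‖ : ℂ) * g ω, hg.const_mul _, fun A hA hC => ?_⟩
    obtain ⟨C, hC⟩ := hC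
    have hC' : ∃ C' : ℝ, ∀ ω ∈ A, ‖g ω‖ ≤ C' := by
      refine ⟨C / ‖x‖, fun ω hω => ?_⟩
      have := hC ω hω
      rw [norm_mul, Complex.norm_real, norm_norm] at this
      rw [le_div_iff₀ hxn, mul_comm]
      exact this
    rw [h1 A hA hC', hy, map_smul]
    have e1 : (A.indicator fun ω => (‖x‖ : ℂ) * g ω) = ‖x‖ • A.indicator g := by
      ext ω; by_cases hω : ω ∈ A <;> simp [hω]
    rw [e1, R.smul _ (bm_of_bdd hg hA hC'), _root_.smul_apply, smul_smul,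
      inv_mul_cancel₀ hxn.ne', one_smul]
  obtain ⟨ψ, hψ⟩ := exists_norming y
  obtain ⟨m, hm1, hm2, hm3⟩ := R.exists_measure hψ
  have hpack : Pack R y ψ m := ⟨hyu, hy1, hψ, hm1, hm2, hm3, fun B hB hcomm =>
    hyu.irreducible (fun z hz => htr z y hz hy1) hB hcomm⟩
  exact hpack.parallelogram f g

end Act
end Pool.Agent.Helper60.Rot
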