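import Pool.Agent.Helper60.Rot.Core

set_option autoImplicit false
set_option linter.unusedSectionVars false

open MeasureTheory Filter Topology
open scoped ComplexConjugate ENNReal

namespace Pool.Agent.Helper60.Rot
namespace Act

variable {Ω : Type*} [MeasurableSpace Ω] {E : Type*} [NormedAddCommGroup E] [NormedSpace ℝ E]
variable (R : Act Ω E)

/-- An operator commuting with all skew operators commutes with all multiplications. -/
lemma comm_of_comm_skew (T : E →L[ℝ] E) (hT : ∀ D : E →L[ℝ] E, Skew D → ∀ f, T (D f) = D (T f))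
    {a : Ω → ℂ} (ha : BM a) (f : E) : T (R.M a f) = R.M a (T f) := by
  have hI : ∀ g, T (R.M (fun _ => Complex.I) g) = R.M (fun _ => Complex.I) (T g) := by
    intro g
    have h1 := R.skew_im (a := fun _ => (1 : ℝ)) measurable_const (C := 1) (fun _ => by simp)
    have h2 := hT _ h1 g
    simpa using h2
  have hreal : ∀ (r : Ω → ℝ), Measurable r → (∃ C, ∀ ω, |r ω| ≤ C) → ∀ g,
      T (R.M (fun ω => (r ω : ℂ)) g) = R.M (fun ω => (r ω : ℂ)) (T g) := by
    rintro r hr ⟨C, hC⟩ g
    have h1 := hT _ (R.skew_im (a := fun ω => - r ω) hr.neg (C := C) (fun ω => by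
      rw [abs_neg]; exact hC ω))
    have hb : BM (fun ω => Complex.I * ((- r ω : ℝ) : ℂ)) :=
      (BM.const Complex.I).mul (BM.ofReal hr.neg (C := C) (fun ω => by rw [abs_neg]; exact hC ω))
    have hrI : (fun ω => (r ω : ℂ)) = (fun _ => Complex.I) * (fun ω => Complex.I * ((- r ω : ℝ) : ℂ)) := by
      ext ω
      simp only [Pi.mul_apply]
      push_cast
      rw [← mul_assoc, Complex.I_mul_I]
      ring
    rw [hrI, R.mul (BM.const _) hb, R.mul (BM.const _) hb, hI, h1]
  obtain ⟨ha1, C, hC⟩ := ha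
  have hdec : a = (fun ω => ((a ω).re : ℂ)) + (fun _ => Complex.I) * (fun ω => ((a ω).im : ℂ)) := by
    ext ω
    simp only [Pi.add_apply, Pi.mul_apply]
    rw [mul_comm, Complex.re_add_im]
  have hb1 : BM (fun ω => ((a ω).re : ℂ)) := BM.re ⟨ha1, C, hC⟩
  have hb2 : BM (fun ω => ((a ω).im : ℂ)) := BM.im ⟨ha1, C, hC⟩
  have hr1 := hreal _ (Complex.measurable_re.comp ha1) ⟨C, fun ω => (Complex.abs_re_le_norm _).trans (hC ω)⟩
  have hr2 := hreal _ (Complex.measurable_im.comp ha1) ⟨C, fun ω => (Complex.abs_im_le_norm _).trans (hC ω)⟩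
  simp only [Function.comp_def] at hr1 hr2
  rw [hdec, R.add hb1 ((BM.const _).mul hb2), _root_.add_apply, map_add, R.mul (BM.const _) hb2, hI,
    hr1, hr2, _root_.add_apply, R.mul (BM.const _) hb2]

variable {R}

lemma IsUnit.support_zero {x : E} {q : Ω → ℂ} (hq : BM q) (h : R.M q x = 0) :
    R.P {ω | q ω ≠ 0} x = 0 := by
  have hm : ∀ k : ℕ, MeasurableSet {ω | 1 / ((k : ℝ) + 1) ≤ ‖q ω‖} := fun k =>
    measurableSet_le measurable_const hq.1.norm
  have h1 : ∀ k : ℕ, R.P {ω | 1 / ((k : ℝ) + 1) ≤ ‖q ω‖} x = 0 := by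
    intro k
    set A := {ω | 1 / ((k : ℝ) + 1) ≤ ‖q ω‖} with hA
    have hb : BM (A.indicator (fun ω => (q ω)⁻¹)) := by
      refine bm_of_bdd hq.1.inv (hm k) ⟨(k : ℝ) + 1, fun ω hω => ?_⟩
      rw [Pi.inv_apply, norm_inv]
      rw [hA, Set.mem_ofPred_eq] at hω
      have hpos : (0 : ℝ) < 1 / ((k : ℝ) + 1) := by positivity
      have := inv_anti₀ hpos hω
      simpa using this
    have h2 : R.M (A.indicator (fun ω => (q ω)⁻¹) * q) x = 0 := by
      rw [R.mul hb hq, h, map_zero]
    have h3 : A.indicator (fun ω => (q ω)⁻¹) * q = A.indicator 1 := by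
      ext ω
      by_cases hω : ω ∈ A
      · have : q ω ≠ 0 := by
          intro h0
          rw [hA, Set.mem_ofPred_eq, h0, norm_zero] at hω
          have hpos : (0 : ℝ) < 1 / ((k : ℝ) + 1) := by positivity
          linarith
        simp [hω, this]
      · simp [hω]
    rwa [h3] at h2
  have h2 := R.tendsto_mono (fun k : ℕ => {ω | 1 / ((k : ℝ) + 1) ≤ ‖q ω‖}) hm (by
    intro i j hij ω hω
    refine le_trans ?_ (show 1 / ((i : ℝ) + 1) ≤ ‖q ω‖ from hω)
    apply one_div_le_one_div_of_le (by positivity)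
    have : (i : ℝ) ≤ j := Nat.cast_le.mpr hij
    linarith) (B := {ω | q ω ≠ 0}) (hq.1 (measurableSet_singleton (0 : ℂ)).compl) (by
    ext ω
    simp only [Set.mem_iUnion, Set.mem_ofPred_eq]
    constructor
    · rintro ⟨k, hk⟩ h0
      rw [h0, norm_zero] at hk
      have hpos : (0 : ℝ) < 1 / ((k : ℝ) + 1) := by positivity
      linarith
    · intro h0
      obtain ⟨k, hk⟩ := exists_nat_one_div_lt (norm_pos_iff.mpr h0)
      exact ⟨k, hk.le⟩) x
  refine tendsto_nhds_unique h2 ?_
  simp_rw [h1]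
  exact tendsto_const_nhds

/-- an idempotent commuting with multiplications is a band projection -/
lemma IsUnit.idem {x : E} (hx : R.IsUnit x) (T : E →L[ℝ] E)
    (hT : ∀ a : Ω → ℂ, BM a → ∀ f, T (R.M a f) = R.M a (T f)) (hTT : ∀ f, T (T f) = T f) :
    ∃ B : Set Ω, MeasurableSet B ∧ ∀ f, T f = R.P B f := by
  obtain ⟨g, hg, h1, h2⟩ := hx.approx (T x)
  set B : Set Ω := {ω | g ω = 1} with hB
  have hBm : MeasurableSet B := hg (measurableSet_singleton 1)
  have key : ∀ n : ℕ, 1 ≤ n → R.M ({ω | ‖g ω‖ ≤ n}.indicator g) x = R.P B x := by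
    intro n hn
    set A := {ω | ‖g ω‖ ≤ n} with hA
    have hAm : MeasurableSet A := sub_meas hg n
    have hb : BM (A.indicator g) := bm_sub hg n
    have e1 : R.M (A.indicator g) x = R.M (A.indicator g) (R.M (A.indicator g) x) := by
      have e2 : T (R.P A (T x)) = R.P A (T x) := by
        rw [P, ← hT _ (bmInd hAm), hTT, hT _ (bmInd hAm)]
      have e3 : T (R.M (A.indicator g) x) = R.M (A.indicator g) (R.M (A.indicator g) x) := by
        rw [hT _ hb]
        conv_rhs => rw [← h1 n]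
        rw [R.M_mul_ind' hAm hb]
        congr 2
        ext ω; by_cases hω : ω ∈ A <;> simp [hω]
      rw [← e3, ← h1 n, e2]
    have hq : BM (A.indicator g - A.indicator g * A.indicator g) := hb.sub (hb.mul hb)
    have e4 : R.M (A.indicator g - A.indicator g * A.indicator g) x = 0 := by
      have : A.indicator g - A.indicator g * A.indicator g
          = A.indicator g + (-1 : ℝ) • (A.indicator g * A.indicator g) := by
        ext ω; simp [sub_eq_add_neg]
      rw [this, R.add hb ((hb.mul hb).smul _), R.smul _ (hb.mul hb), _root_.add_apply,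
        _root_.smul_apply, R.mul hb hb, ← e1]
      simp
    have e5 := IsUnit.support_zero hq e4
    set Z := {ω | (A.indicator g - A.indicator g * A.indicator g) ω ≠ 0} with hZ
    have hZm : MeasurableSet Z := hq.1 (measurableSet_singleton (0 : ℂ)).compl
    have e6 : R.M (A.indicator g) x = R.M (Zᶜ.indicator (A.indicator g)) x := by
      rw [← R.M_mul_ind' hZm.compl hb, R.P_compl' hZm, e5, sub_zero]
    have e7 : R.P B x = R.M (Zᶜ.indicator (B.indicator 1)) x := by
      rw [← R.M_mul_ind' hZm.compl (bmInd hBm), R.P_compl' hZm, e5, sub_zero]; rfl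
    rw [e6, e7]
    congr 2
    ext ω
    by_cases hω : ω ∈ Z
    · simp [hω]
    · have h3 : (A.indicator g - A.indicator g * A.indicator g) ω = 0 := by
        by_contra h; exact hω h
      have hω' : ω ∈ Zᶜ := hω
      rw [Set.indicator_of_mem hω', Set.indicator_of_mem hω']
      by_cases hωA : ω ∈ A
      · simp only [Pi.sub_apply, Pi.mul_apply, Set.indicator_of_mem hωA] at h3
        have h4 : g ω * (1 - g ω) = 0 := by linear_combination h3
        rcases mul_eq_zero.mp h4 with h5 | h5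
        · have : ω ∉ B := by rw [hB, Set.mem_ofPred_eq, h5]; norm_num
          rw [Set.indicator_of_mem hωA, Set.indicator_of_notMem this, h5]
        · have h6 : g ω = 1 := by linear_combination -h5
          have : ω ∈ B := h6
          rw [Set.indicator_of_mem hωA, Set.indicator_of_mem this, h6]; rfl
      · have : ω ∉ B := by
          intro h4
          apply hωA
          rw [hA, Set.mem_ofPred_eq, show g ω = 1 from h4]
          simpa using (by exact_mod_cast hn : (1 : ℝ) ≤ n)
        rw [Set.indicator_of_notMem hωA, Set.indicator_of_notMem this]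
  have hTx : T x = R.P B x := by
    refine tendsto_nhds_unique h2 ?_
    refine tendsto_const_nhds.congr' ?_
    filter_upwards [eventually_ge_atTop 1] with n hn using (key n hn).symm
  refine ⟨B, hBm, fun f => hx.ext T.continuous (R.P B).continuous (fun a ha => ?_) f⟩
  rw [hT a ha, hTx, R.M_comm_P hBm ha]

/-- transitivity kills the centre -/
theorem IsUnit.irreducible {x : E} (hx : R.IsUnit x)
    (htr : ∀ y : E, ‖y‖ = 1 → ∃ T : E ≃ₗᵢ[ℝ] E, T y = x) {B : Set Ω} (hB : MeasurableSet B)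
    (hcomm : ∀ D : E →L[ℝ] E, Skew D → ∀ f, R.P B (D f) = D (R.P B f)) :
    (∀ f, R.P B f = 0) ∨ (∀ f, R.P B f = f) := by
  by_cases h0 : R.P B x = 0
  · exact Or.inl (hx.P_eq_zero hB h0)
  right
  have hpos : 0 < ‖R.P B x‖ := norm_pos_iff.mpr h0
  obtain ⟨T, hT⟩ := htr (‖R.P B x‖⁻¹ • R.P B x) (by
    rw [norm_smul, norm_inv, norm_norm, inv_mul_cancel₀ hpos.ne'])
  set Tc : E →L[ℝ] E := (T : E →L[ℝ] E) with hTc
  set Ti : E →L[ℝ] E := (T.symm : E →L[ℝ] E) with hTi
  have hTcT : ∀ f, Tc f = T f := fun f => rfl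
  have hTiT : ∀ f, Ti f = T.symm f := fun f => rfl
  set S : E →L[ℝ] E := Tc.comp ((R.P B).comp Ti) with hS
  have hSf : ∀ f, S f = T (R.P B (T.symm f)) := fun f => rfl
  have hScomm : ∀ D : E →L[ℝ] E, Skew D → ∀ f, S (D f) = D (S f) := by
    intro D hD f
    have h1 : Skew (Ti.comp (D.comp Tc)) := hD.conj Tc Ti (fun g => by rw [hTcT, T.norm_map])
      (fun g => by rw [hTiT, T.symm.norm_map]) (fun g => by rw [hTiT, hTcT, T.symm_apply_apply])
    have h2 := hcomm _ h1 (T.symm f)
    simp only [ContinuousLinearMap.comp_apply, hTcT, hTiT, LinearIsometryEquiv.apply_symm_apply] at h2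
    rw [hSf, hSf, h2]
    simp
  have hSS : ∀ f, S (S f) = S f := by
    intro f
    rw [hSf, hSf, T.symm_apply_apply, R.P_P hB hB, Set.inter_self]
  obtain ⟨B', hB', hSB⟩ := hx.idem S (fun a ha f => R.comm_of_comm_skew S hScomm ha f) hSS
  have h3 : S x = x := by
    rw [hSf, ← hT, T.symm_apply_apply, map_smul, R.P_P hB hB, Set.inter_self, ]
  have h4 : R.P B'ᶜ x = 0 := by
    rw [R.P_compl' hB', ← hSB, h3, sub_self]
  have h5 : ∀ f, S f = f := by
    intro f
    rw [hSB]
    have := hx.P_eq_zero hB'.compl h4 f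
    rw [R.P_compl' hB', sub_eq_zero] at this
    exact this.symm
  intro f
  have h6 := h5 (T f)
  rw [hSf, T.symm_apply_apply] at h6
  exact T.injective h6

/-- a skew operator with one vanishing corner commutes with the projection -/
lemma Skew.comm_P {D : E →L[ℝ] E} (hD : Skew D) {A : Set Ω} (hA : MeasurableSet A)
    (h : ∀ f, R.P Aᶜ (D (R.P A f)) = 0) (f : E) : R.P A (D f) = D (R.P A f) := by
  -- the symmetry u = 1 on A, -1 on the complement
  set U : E →L[ℝ] E := R.P A - R.P Aᶜ with hU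
  have hUf : ∀ g, U g = R.P A g - R.P Aᶜ g := fun g => rfl
  have hUM : ∀ g, U g = R.M (A.indicator (1 : Ω → ℂ) + (-1 : ℝ) • Aᶜ.indicator 1) g := by
    intro g
    rw [R.add (bmInd hA) ((bmInd hA.compl).smul _), R.smul _ (bmInd hA.compl), hUf]
    simp [P, sub_eq_add_neg]
  have hUn : ∀ g, ‖U g‖ ≤ ‖g‖ := by
    intro g
    rw [hUM]
    refine R.norm_M_unimod_le ((bmInd hA).add ((bmInd hA.compl).smul _)).1 (fun ω => ?_) g
    by_cases hω : ω ∈ A <;> simp [hω]
  have hPP1 : ∀ g, R.P A (R.P A g) = R.P A g := fun g => by rw [R.P_P hA hA, Set.inter_self]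
  have hPP2 : ∀ g, R.P Aᶜ (R.P Aᶜ g) = R.P Aᶜ g := fun g => by
    rw [R.P_P hA.compl hA.compl, Set.inter_self]
  have hPP3 : ∀ g, R.P A (R.P Aᶜ g) = 0 := fun g => R.P_disj hA hA.compl disjoint_compl_right g
  have hPP4 : ∀ g, R.P Aᶜ (R.P A g) = 0 := fun g => R.P_disj hA.compl hA disjoint_compl_left g
  have hUU : ∀ g, U (U g) = g := by
    intro g
    rw [hUf, hUf, map_sub, map_sub, hPP1, hPP2, hPP3, hPP4, sub_zero, zero_sub, sub_neg_eq_add,
      R.P_compl hA]
  have h1 : Skew (D - U.comp (D.comp U)) := hD.sub (hD.conj U U hUn hUn hUU)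
  have hOf : ∀ g, (D - U.comp (D.comp U)) g = (2 : ℝ) • R.P A (D (R.P Aᶜ g)) := by
    intro g
    have hg := R.P_compl hA g
    have hDg : D g = D (R.P A g) + D (R.P Aᶜ g) := by rw [← map_add, hg]
    have e1 : D (R.P A g) = R.P A (D (R.P A g)) := by
      have := R.P_compl hA (D (R.P A g)); rw [h, add_zero] at this; exact this.symm
    have e2 : (D - U.comp (D.comp U)) g = D g - U (D (U g)) := rfl
    have e3 : D (U g) = D (R.P A g) - D (R.P Aᶜ g) := by rw [hUf, map_sub]
    have e4 : U (D (R.P A g)) = D (R.P A g) := by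
      rw [hUf, h, sub_zero, ← e1]
    rw [e2, e3, map_sub, e4, hUf, hDg]
    have e5 := R.P_compl hA (D (R.P Aᶜ g))
    have e6 : R.P Aᶜ (D (R.P Aᶜ g)) = D (R.P Aᶜ g) - R.P A (D (R.P Aᶜ g)) := by
      rw [R.P_compl' hA]
    rw [e6, two_smul]
    abel
  have h2 : ∀ g, (D - U.comp (D.comp U)) ((D - U.comp (D.comp U)) g) = 0 := by
    intro g
    rw [hOf, hOf, map_smul, hPP4, smul_zero, map_zero, map_zero, smul_zero]
  have h3 := h1.eq_zero_of_sq h2
  have h4 : ∀ g, R.P A (D (R.P Aᶜ g)) = 0 := by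
    intro g
    have := h3 g
    rw [hOf] at this
    exact (smul_eq_zero.mp this).resolve_left two_ne_zero
  have e1 : D (R.P A f) = R.P A (D (R.P A f)) := by
    have := R.P_compl hA (D (R.P A f)); rw [h, add_zero] at this; exact this.symm
  have e2 : D f = D (R.P A f) + D (R.P Aᶜ f) := by rw [← map_add, R.P_compl hA]
  rw [e2, map_add, h4, add_zero, ← e1]

end Act
end Pool.Agent.Helper60.Rot
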