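import Pool.Agent.Helper60.Rot.Abs

set_option autoImplicit false
set_option linter.unusedSectionVars false

open MeasureTheory Filter Topology
open scoped ComplexConjugate ENNReal

namespace Pool.Agent.Helper60.Rot
namespace Act

variable {Ω : Type*} [MeasurableSpace Ω] {E : Type*} [NormedAddCommGroup E] [NormedSpace ℝ E]
variable (R : Act Ω E)

lemma psi_P_nonneg {f : E} {ψ : E →L[ℝ] ℝ} (h : Norming f ψ) {A : Set Ω} (hA : MeasurableSet A) :
    0 ≤ ψ (R.P A f) := by
  have h1 : ψ (R.P A f) + ψ (R.P Aᶜ f) = ‖f‖ := by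
    rw [← map_add, R.P_compl hA, h.2]
  have hb : BM (Aᶜ.indicator (1 : Ω → ℂ) - A.indicator 1) := (bmInd hA.compl).sub (bmInd hA)
  have h2 : ‖R.M (Aᶜ.indicator (1 : Ω → ℂ) - A.indicator 1) f‖ ≤ 1 * ‖f‖ := by
    refine R.norm_le hb (fun ω => ?_) zero_le_one f
    by_cases hω : ω ∈ A <;> simp [hω]
  have h3 : R.M (Aᶜ.indicator (1 : Ω → ℂ) - A.indicator 1) f = R.P Aᶜ f - R.P A f := by
    have : Aᶜ.indicator (1 : Ω → ℂ) - A.indicator 1
        = Aᶜ.indicator (1 : Ω → ℂ) + (-1 : ℝ) • A.indicator 1 := by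
      ext ω; simp [sub_eq_add_neg]
    rw [this, R.add (bmInd hA.compl) ((bmInd hA).smul _), R.smul _ (bmInd hA)]
    simp [P, sub_eq_add_neg]
  have h4 := h.le (R.M (Aᶜ.indicator (1 : Ω → ℂ) - A.indicator 1) f)
  rw [h3, map_sub] at h4
  rw [h3] at h2
  linarith

lemma hasSum_P {A : ℕ → Set Ω} (hA : ∀ n, MeasurableSet (A n))
    (hd : Pairwise (Function.onFun Disjoint A)) (f : E) (ψ : E →L[ℝ] ℝ) :
    Tendsto (fun n => ∑ i ∈ Finset.range n, ψ (R.P (A i) f)) atTop (𝓝 (ψ (R.P (⋃ i, A i) f))) := by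
  have h1 : ∀ n, ∑ i ∈ Finset.range n, ψ (R.P (A i) f) = ψ (R.P (⋃ i ∈ Finset.range n, A i) f) := by
    intro n
    induction n with
    | zero => simp [R.P_empty]
    | succ n ih =>
      have hm : MeasurableSet (⋃ i ∈ Finset.range n, A i) :=
        Finset.measurableSet_biUnion _ fun i _ => hA i
      have hdis : Disjoint (A n) (⋃ i ∈ Finset.range n, A i) := by
        rw [Set.disjoint_iUnion₂_right]
        intro i hi
        exact hd (by simpa using (Finset.mem_range.mp hi).ne')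
      rw [Finset.sum_range_succ, ih, Finset.range_add_one, Finset.set_biUnion_insert,
        R.P_union (hA n) hm hdis, map_add, add_comm]
  simp_rw [h1]
  refine (ψ.continuous.tendsto _).comp ?_
  refine R.tendsto_mono (fun n => ⋃ i ∈ Finset.range n, A i)
    (fun n => Finset.measurableSet_biUnion _ fun i _ => hA i) ?_ (MeasurableSet.iUnion hA) ?_ f
  · intro i j hij
    exact Set.biUnion_subset_biUnion_left (fun x hx => Finset.mem_coe.mpr
      (Finset.mem_range.mpr ((Finset.mem_range.mp (Finset.mem_coe.mp hx)).trans_le hij)))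
  · ext ω
    simp only [Set.mem_iUnion, Finset.mem_range]
    constructor
    · rintro ⟨n, i, -, h⟩; exact ⟨i, h⟩
    · rintro ⟨i, h⟩; exact ⟨i + 1, i, Nat.lt_succ_self i, h⟩

/-- the measure attached to a norming pair -/
lemma exists_measure_sets {f : E} {ψ : E →L[ℝ] ℝ} (h : Norming f ψ) :
    ∃ m : Measure Ω, ∀ A, MeasurableSet A → m A = ENNReal.ofReal (ψ (R.P A f)) := by
  refine ⟨Measure.ofMeasurable (fun A _ => ENNReal.ofReal (ψ (R.P A f))) ?_ ?_, ?_⟩
  · simp [R.P_empty]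
  · intro A hA hd
    have h1 := R.hasSum_P hA hd f ψ
    have hnn : ∀ i, 0 ≤ ψ (R.P (A i) f) := fun i => R.psi_P_nonneg h (hA i)
    have h2 : HasSum (fun i => ψ (R.P (A i) f)) (ψ (R.P (⋃ i, A i) f)) :=
      (hasSum_iff_tendsto_nat_of_nonneg hnn _).mpr h1
    rw [← h2.tsum_eq]
    exact ENNReal.ofReal_tsum_of_nonneg hnn h2.summable
  · intro A hA
    exact Measure.ofMeasurable_apply A hA

/-- floor approximation of a bounded measurable real function by a simple function -/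
lemma exists_simple {r : Ω → ℝ} (hr : Measurable r) {C : ℝ} (hC : ∀ ω, |r ω| ≤ C) {ε : ℝ}
    (hε : 0 < ε) : ∃ s : SimpleFunc Ω ℝ, ∀ ω, |r ω - s ω| ≤ ε := by
  have hmeas : Measurable (fun ω => (⌊r ω / ε⌋ : ℝ) * ε) := by
    have h1 : Measurable (fun ω => ⌊r ω / ε⌋) := Int.measurable_floor.comp (hr.div_const ε)
    exact ((measurable_from_top (f := fun n : ℤ => (n : ℝ))).comp h1).mul_const ε
  refine ⟨⟨fun ω => (⌊r ω / ε⌋ : ℝ) * ε, fun x => hmeas (measurableSet_singleton x), ?_⟩, ?_⟩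
  · have hsub : Set.range (fun ω => (⌊r ω / ε⌋ : ℝ) * ε) ⊆
        (fun n : ℤ => (n : ℝ) * ε) '' (Set.Icc ⌊-C / ε⌋ ⌊C / ε⌋) := by
      rintro _ ⟨ω, rfl⟩
      have h2 := abs_le.mp (hC ω)
      refine ⟨⌊r ω / ε⌋, ⟨?_, ?_⟩, rfl⟩
      · exact Int.floor_le_floor (by gcongr; exact h2.1)
      · exact Int.floor_le_floor (by gcongr; exact h2.2)
    exact ((Set.finite_Icc _ _).image _).subset hsub
  · intro ω
    change |r ω - (⌊r ω / ε⌋ : ℝ) * ε| ≤ ε
    have h1 := Int.floor_le (r ω / ε)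
    have h2 := Int.lt_floor_add_one (r ω / ε)
    have h3 : r ω = r ω / ε * ε := by field_simp
    rw [abs_le]
    constructor
    · nlinarith
    · nlinarith

lemma bm_simple (s : SimpleFunc Ω ℝ) : BM (fun ω => (s ω : ℂ)) := by
  obtain ⟨C, hC⟩ := s.exists_forall_norm_le
  exact BM.ofReal s.measurable hC

/-- integral formula -/
theorem exists_measure {f : E} {ψ : E →L[ℝ] ℝ} (h : Norming f ψ) :
    ∃ m : Measure Ω, IsFiniteMeasure m ∧ (∀ A, MeasurableSet A → m.real A = ψ (R.P A f)) ∧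
      ∀ c : Ω → ℂ, BM c → ψ (R.M c f) = ∫ ω, (c ω).re ∂m := by
  obtain ⟨m, hm⟩ := R.exists_measure_sets h
  have hfin : IsFiniteMeasure m := ⟨by rw [hm _ MeasurableSet.univ]; exact ENNReal.ofReal_lt_top⟩
  have hreal : ∀ A, MeasurableSet A → m.real A = ψ (R.P A f) := by
    intro A hA
    rw [Measure.real, hm A hA, ENNReal.toReal_ofReal (R.psi_P_nonneg h hA)]
  refine ⟨m, hfin, hreal, ?_⟩
  -- simple functions
  have hsimple : ∀ s : SimpleFunc Ω ℝ, ψ (R.M (fun ω => (s ω : ℂ)) f) = ∫ ω, s ω ∂m := by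
    intro s
    induction s using SimpleFunc.induction with
    | @const c A hA =>
      have h1 : (fun ω => ((SimpleFunc.piecewise A hA (SimpleFunc.const Ω c)
          (SimpleFunc.const Ω 0)) ω : ℂ)) = c • A.indicator (1 : Ω → ℂ) := by
        ext ω
        by_cases hω : ω ∈ A <;> simp [SimpleFunc.piecewise_apply, hω]
      have h2 : (fun ω => (SimpleFunc.piecewise A hA (SimpleFunc.const Ω c)
          (SimpleFunc.const Ω 0)) ω) = A.indicator (fun _ => c) := by
        ext ω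
        by_cases hω : ω ∈ A <;> simp [SimpleFunc.piecewise_apply, hω]
      rw [h1, h2, R.smul c (bmInd hA), integral_indicator hA, setIntegral_const, hreal A hA]
      simp [P, mul_comm]
    | @add g1 g2 hdis ih1 ih2 =>
      have h1 : (fun ω => ((g1 + g2 : SimpleFunc Ω ℝ) ω : ℂ))
          = (fun ω => (g1 ω : ℂ)) + (fun ω => (g2 ω : ℂ)) := by
        ext ω; simp
      have h2 : (fun ω => (g1 + g2 : SimpleFunc Ω ℝ) ω) = fun ω => g1 ω + g2 ω := by
        ext ω; simp
      rw [h1, R.add (bm_simple g1) (bm_simple g2), _root_.add_apply, map_add, ih1, ih2,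
        h2, integral_add (g1.integrable_of_isFiniteMeasure) (g2.integrable_of_isFiniteMeasure)]
  -- real functions
  have hrealf : ∀ (r : Ω → ℝ), Measurable r → (∃ C, ∀ ω, |r ω| ≤ C) →
      ψ (R.M (fun ω => (r ω : ℂ)) f) = ∫ ω, r ω ∂m := by
    rintro r hr ⟨C, hC⟩
    have hint : Integrable r m := by
      refine Integrable.of_bound hr.aestronglyMeasurable C ?_
      exact Eventually.of_forall fun ω => by simpa using hC ω
    have key : ∀ ε : ℝ, 0 < ε →
        |ψ (R.M (fun ω => (r ω : ℂ)) f) - ∫ ω, r ω ∂m| ≤ ε * (‖f‖ + m.real Set.univ) := by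
      intro ε hε
      obtain ⟨s, hs⟩ := exists_simple hr hC hε
      have hsint : Integrable (fun ω => s ω) m := s.integrable_of_isFiniteMeasure
      have h1 : |ψ (R.M (fun ω => (r ω : ℂ)) f) - ψ (R.M (fun ω => (s ω : ℂ)) f)| ≤ ε * ‖f‖ := by
        have hb : BM (fun ω => ((r ω - s ω : ℝ) : ℂ)) :=
          BM.ofReal (hr.sub s.measurable) hs
        have hsum : (fun ω => (r ω : ℂ)) = (fun ω => ((r ω - s ω : ℝ) : ℂ)) + (fun ω => (s ω : ℂ)) := by
          ext ω; simp
        have h2 : R.M (fun ω => (r ω : ℂ)) f - R.M (fun ω => (s ω : ℂ)) f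
            = R.M (fun ω => ((r ω - s ω : ℝ) : ℂ)) f := by
          rw [hsum, R.add hb (bm_simple s)]
          simp
        rw [← map_sub, h2]
        have h3 := R.norm_le hb (C := ε) (fun ω => by
          rw [Complex.norm_real]; exact hs ω) hε.le f
        have h4 := ψ.le_of_opNorm_le h.1 (R.M (fun ω => ((r ω - s ω : ℝ) : ℂ)) f)
        rw [one_mul, Real.norm_eq_abs] at h4
        exact h4.trans h3
      have h5 : |∫ ω, r ω ∂m - ∫ ω, s ω ∂m| ≤ ε * m.real Set.univ := by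
        rw [← integral_sub hint hsint]
        have := norm_integral_le_of_norm_le_const (μ := m) (f := fun ω => r ω - s ω) (C := ε)
          (Eventually.of_forall fun ω => by simpa using hs ω)
        simpa using this
      rw [hsimple s] at h1
      have h6 : |ψ (R.M (fun ω => (r ω : ℂ)) f) - ∫ ω, r ω ∂m| ≤
          |ψ (R.M (fun ω => (r ω : ℂ)) f) - ∫ ω, s ω ∂m| + |∫ ω, r ω ∂m - ∫ ω, s ω ∂m| := by
        have := abs_sub_le (ψ (R.M (fun ω => (r ω : ℂ)) f)) (∫ ω, s ω ∂m) (∫ ω, r ω ∂m)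
        rwa [abs_sub_comm (∫ ω, s ω ∂m)] at this
      linarith
    by_contra hne
    have hpos : 0 < |ψ (R.M (fun ω => (r ω : ℂ)) f) - ∫ ω, r ω ∂m| := abs_pos.mpr (sub_ne_zero.mpr hne)
    set K := ‖f‖ + m.real Set.univ with hK
    have hK0 : 0 ≤ K := by positivity
    have h7 := key (|ψ (R.M (fun ω => (r ω : ℂ)) f) - ∫ ω, r ω ∂m| / (2 * (K + 1))) (by positivity)
    have h8 : |ψ (R.M (fun ω => (r ω : ℂ)) f) - ∫ ω, r ω ∂m| / (2 * (K + 1)) * K
        < |ψ (R.M (fun ω => (r ω : ℂ)) f) - ∫ ω, r ω ∂m| := by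
      rw [div_mul_eq_mul_div, div_lt_iff₀ (by positivity)]
      nlinarith
    linarith
  intro c hc
  obtain ⟨hc1, C, hC⟩ := hc
  have hdec : c = (fun ω => ((c ω).re : ℂ)) + (fun ω => Complex.I * ((c ω).im : ℂ)) := by
    ext ω
    simp only [Pi.add_apply]
    rw [mul_comm, Complex.re_add_im]
  have hb1 : BM (fun ω => ((c ω).re : ℂ)) := BM.re ⟨hc1, C, hC⟩
  have hb2 : BM (fun ω => Complex.I * ((c ω).im : ℂ)) :=
    (BM.const Complex.I).mul (BM.im ⟨hc1, C, hC⟩)
  have h1 : R.M c f = R.M (fun ω => ((c ω).re : ℂ)) f + R.M (fun ω => Complex.I * ((c ω).im : ℂ)) f := by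
    conv_lhs => rw [hdec]
    rw [R.add hb1 hb2]; rfl
  rw [h1, map_add, R.skew_im (a := fun ω => (c ω).im) (Complex.measurable_im.comp hc1)
    (fun ω => (Complex.abs_im_le_norm _).trans (hC ω)) f ψ h, add_zero]
  exact hrealf _ (Complex.measurable_re.comp hc1)
    ⟨C, fun ω => (Complex.abs_re_le_norm _).trans (hC ω)⟩

end Act
end Pool.Agent.Helper60.Rot
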