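import Pool.Agent.Helper60.Rot.SpaceDefs
import Pool.Agent.Helper60.Rot.Hilb

set_option autoImplicit false
set_option linter.unusedSectionVars false

open MeasureTheory Filter Topology
open scoped ComplexConjugate ENNReal

namespace Pool.Agent.Helper60.Rot

variable {Ω : Type*} [MeasurableSpace Ω] {μ : Measure Ω} {X : Type*}
  [NormedAddCommGroup X] [NormedSpace ℂ X] {j : X →ₗ[ℂ] (Ω →ₘ[μ] ℂ)}

/-- class of a bounded measurable function -/
noncomputable def cls (μ : Measure Ω) (a : Ω → ℂ) (ha : Measurable a) : Ω →ₘ[μ] ℂ :=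
  AEEqFun.mk a ha.aestronglyMeasurable

lemma cls_coe {a : Ω → ℂ} (ha : Measurable a) : (cls μ a ha : Ω → ℂ) =ᵐ[μ] a :=
  AEEqFun.coeFn_mk _ _

lemma exists_mul (hj : IsFunctionSpace μ j) {a : Ω → ℂ} (ha : Measurable a) {C : ℝ} (hC0 : 0 ≤ C)
    (hC : ∀ ω, ‖a ω‖ ≤ C) (f : X) : ∃ h : X, j h = cls μ a ha * j f ∧ ‖h‖ ≤ C * ‖f‖ := by
  obtain ⟨h, h1, h2⟩ := hj.solid ((C : ℂ) • f) (cls μ a ha * j f) (by
    filter_upwards [AEEqFun.coeFn_mul (cls μ a ha) (j f), cls_coe (μ := μ) ha,
      AEEqFun.coeFn_smul (C : ℂ) (j f)] with ω e1 e2 e3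
    rw [map_smul, e1, e3, Pi.mul_apply, Pi.smul_apply, e2, norm_mul, norm_smul, Complex.norm_real,
      Real.norm_eq_abs, abs_of_nonneg hC0]
    exact mul_le_mul_of_nonneg_right (hC ω) (norm_nonneg _))
  refine ⟨h, h1, h2.trans ?_⟩
  rw [norm_smul, Complex.norm_real, Real.norm_eq_abs, abs_of_nonneg hC0]

lemma exists_mul' (hj : IsFunctionSpace μ j) {a : Ω → ℂ} (ha : BM a) (f : X) :
    ∃ h : X, j h = cls μ a ha.1 * j f := by
  obtain ⟨C, hC⟩ := ha.2
  obtain ⟨h, h1, -⟩ := exists_mul hj ha.1 (C := |C|) (abs_nonneg _)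
    (fun ω => (hC ω).trans (le_abs_self C)) f
  exact ⟨h, h1⟩

open Classical in
/-- multiplication -/
noncomputable def mulFn (hj : IsFunctionSpace μ j) (a : Ω → ℂ) (f : X) : X :=
  if h : BM a then Classical.choose (exists_mul' hj h f) else 0

lemma j_mulFn (hj : IsFunctionSpace μ j) {a : Ω → ℂ} (ha : BM a) (f : X) :
    j (mulFn hj a f) = cls μ a ha.1 * j f := by
  rw [mulFn, dif_pos ha]
  exact Classical.choose_spec (exists_mul' hj ha f)

lemma norm_mulFn (hj : IsFunctionSpace μ j) {a : Ω → ℂ} (ha : BM a) {C : ℝ} (hC0 : 0 ≤ C)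
    (hC : ∀ ω, ‖a ω‖ ≤ C) (f : X) : ‖mulFn hj a f‖ ≤ C * ‖f‖ := by
  obtain ⟨h, h1, h2⟩ := exists_mul hj ha.1 hC0 hC f
  have : mulFn hj a f = h := hj.inj (by rw [j_mulFn hj ha, h1])
  rw [this]; exact h2

lemma j_mulFn_ae (hj : IsFunctionSpace μ j) {a : Ω → ℂ} (ha : BM a) (f : X) :
    (j (mulFn hj a f) : Ω → ℂ) =ᵐ[μ] fun ω => a ω * j f ω := by
  rw [j_mulFn hj ha]
  filter_upwards [AEEqFun.coeFn_mul (cls μ a ha.1) (j f), cls_coe (μ := μ) ha.1] with ω e1 e2
  rw [e1, Pi.mul_apply, e2]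

lemma mulFn_add (hj : IsFunctionSpace μ j) {a : Ω → ℂ} (ha : BM a) (f g : X) :
    mulFn hj a (f + g) = mulFn hj a f + mulFn hj a g := by
  refine hj.inj (AEEqFun.ext ?_)
  rw [map_add]
  have h1 := j_mulFn_ae hj ha (f + g)
  rw [map_add] at h1
  filter_upwards [h1, j_mulFn_ae hj ha f, j_mulFn_ae hj ha g,
    AEEqFun.coeFn_add (j (mulFn hj a f)) (j (mulFn hj a g)), AEEqFun.coeFn_add (j f) (j g)]
    with ω e1 e2 e3 e4 e5
  rw [e1, e4, Pi.add_apply, e2, e3, e5, Pi.add_apply, mul_add]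

lemma mulFn_smul (hj : IsFunctionSpace μ j) {a : Ω → ℂ} (ha : BM a) (c : ℂ) (f : X) :
    mulFn hj a (c • f) = c • mulFn hj a f := by
  refine hj.inj (AEEqFun.ext ?_)
  have h1 := j_mulFn_ae hj ha (c • f)
  rw [map_smul] at h1
  rw [map_smul]
  filter_upwards [h1, j_mulFn_ae hj ha f, AEEqFun.coeFn_smul c (j (mulFn hj a f)),
    AEEqFun.coeFn_smul c (j f)] with ω e1 e2 e3 e4
  rw [e1, e3, Pi.smul_apply, e2, e4, Pi.smul_apply, smul_eq_mul, smul_eq_mul]
  ring

open Classical in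
/-- multiplication operators -/
noncomputable def mulOp (hj : IsFunctionSpace μ j) (a : Ω → ℂ) : X →L[ℝ] X :=
  if h : BM a then
    LinearMap.mkContinuous
      { toFun := mulFn hj a
        map_add' := fun f g => mulFn_add hj h f g
        map_smul' := fun c f => by
          have e1 : c • f = (c : ℂ) • f := by rw [Complex.coe_smul]
          have e2 : (RingHom.id ℝ) c • mulFn hj a f = (c : ℂ) • mulFn hj a f := by
            rw [Complex.coe_smul]; rfl
          rw [e1, e2, mulFn_smul hj h] }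
      (|Classical.choose h.2|)
      (fun f => norm_mulFn hj h (abs_nonneg _)
        (fun ω => (Classical.choose_spec h.2 ω).trans (le_abs_self _)) f)
  else 0

lemma mulOp_apply (hj : IsFunctionSpace μ j) {a : Ω → ℂ} (ha : BM a) (f : X) :
    mulOp hj a f = mulFn hj a f := by
  rw [mulOp, dif_pos ha]; rfl

lemma j_mulOp (hj : IsFunctionSpace μ j) {a : Ω → ℂ} (ha : BM a) (f : X) :
    j (mulOp hj a f) = cls μ a ha.1 * j f := by
  rw [mulOp_apply hj ha, j_mulFn hj ha]

lemma j_mulOp_ae (hj : IsFunctionSpace μ j) {a : Ω → ℂ} (ha : BM a) (f : X) :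
    (j (mulOp hj a f) : Ω → ℂ) =ᵐ[μ] fun ω => a ω * j f ω := by
  rw [j_mulOp hj ha]
  filter_upwards [AEEqFun.coeFn_mul (cls μ a ha.1) (j f), cls_coe (μ := μ) ha.1] with ω e1 e2
  rw [e1, Pi.mul_apply, e2]

lemma ext_ae (hj : IsFunctionSpace μ j) {f g : X} (h : (j f : Ω → ℂ) =ᵐ[μ] j g) : f = g :=
  hj.inj (AEEqFun.ext h)

lemma mulOp_add (hj : IsFunctionSpace μ j) {a b : Ω → ℂ} (ha : BM a) (hb : BM b) :
    mulOp hj (a + b) = mulOp hj a + mulOp hj b := by
  ext f
  refine ext_ae hj ?_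
  rw [_root_.add_apply, map_add]
  filter_upwards [j_mulOp_ae hj (ha.add hb) f, j_mulOp_ae hj ha f, j_mulOp_ae hj hb f,
    AEEqFun.coeFn_add (j (mulOp hj a f)) (j (mulOp hj b f))] with ω e1 e2 e3 e4
  rw [e1, e4, Pi.add_apply, Pi.add_apply, e2, e3, add_mul]

lemma mulOp_mul (hj : IsFunctionSpace μ j) {a b : Ω → ℂ} (ha : BM a) (hb : BM b) (f : X) :
    mulOp hj (a * b) f = mulOp hj a (mulOp hj b f) := by
  refine ext_ae hj ?_
  filter_upwards [j_mulOp_ae hj (ha.mul hb) f, j_mulOp_ae hj ha (mulOp hj b f),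
    j_mulOp_ae hj hb f] with ω e1 e2 e3
  rw [e1, e2, e3, Pi.mul_apply, mul_assoc]

lemma mulOp_smul (hj : IsFunctionSpace μ j) {a : Ω → ℂ} (c : ℝ) (ha : BM a) :
    mulOp hj (c • a) = c • mulOp hj a := by
  ext f
  refine ext_ae hj ?_
  have e0 : (c • mulOp hj a) f = (c : ℂ) • mulOp hj a f := by rw [Complex.coe_smul]; rfl
  rw [e0, map_smul]
  filter_upwards [j_mulOp_ae hj (ha.smul c) f, j_mulOp_ae hj ha f,
    AEEqFun.coeFn_smul (c : ℂ) (j (mulOp hj a f))] with ω e1 e2 e3
  rw [e1, e3, Pi.smul_apply, Pi.smul_apply, e2, Complex.real_smul, smul_eq_mul, mul_assoc]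

lemma mulOp_one (hj : IsFunctionSpace μ j) (f : X) : mulOp hj 1 f = f := by
  refine ext_ae hj ?_
  filter_upwards [j_mulOp_ae hj BM.one f] with ω e1
  rw [e1, Pi.one_apply, one_mul]

/-- indicator projections -/
lemma bmInd' {A : Set Ω} (hA : MeasurableSet A) : BM (A.indicator (1 : Ω → ℂ)) :=
  BM.one.indicator hA

lemma ind_ind (hj : IsFunctionSpace μ j) {A B : Set Ω} (hA : MeasurableSet A)
    (hB : MeasurableSet B) (f : X) : mulOp hj (A.indicator 1) (mulOp hj (B.indicator 1) f)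
      = mulOp hj ((A ∩ B).indicator 1) f := by
  rw [← mulOp_mul hj (bmInd' hA) (bmInd' hB)]
  congr 2
  ext ω
  by_cases h : ω ∈ A <;> by_cases h' : ω ∈ B <;> simp [h, h']

lemma ind_empty (hj : IsFunctionSpace μ j) (f : X) :
    mulOp hj ((∅ : Set Ω).indicator 1) f = 0 := by
  have := norm_mulFn hj (a := (∅ : Set Ω).indicator 1) (bmInd' MeasurableSet.empty) (C := 0) le_rfl
    (by intro ω; simp) f
  rw [zero_mul] at this
  rw [mulOp_apply hj (bmInd' MeasurableSet.empty)]
  exact norm_le_zero_iff.mp this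

lemma norm_ind_le (hj : IsFunctionSpace μ j) {A : Set Ω} (hA : MeasurableSet A) (f : X) :
    ‖mulOp hj (A.indicator 1) f‖ ≤ ‖f‖ := by
  have := norm_mulFn hj (a := A.indicator 1) (bmInd' hA) (C := 1) zero_le_one
    (by intro ω; refine (norm_indicator_le_norm_self _ _).trans ?_; simp) f
  rw [mulOp_apply hj (bmInd' hA)]
  simpa using this

lemma uncountable_false (h : (Set.univ : Set (Set ℕ)).Countable) : False := by
  have : Countable (Set ℕ) := Set.countable_univ_iff.mp h
  obtain ⟨F, hF⟩ := exists_surjective_nat (Set ℕ)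
  exact Function.cantor_surjective F hF

/-- order continuity of the norm from separability -/
theorem ind_tendsto [CompleteSpace X] [TopologicalSpace.SeparableSpace X]
    (hj : IsFunctionSpace μ j) (A : ℕ → Set Ω)
    (hA : ∀ n, MeasurableSet (A n)) (hanti : Antitone A) (hempty : (⋂ n, A n) = ∅) (f : X) :
    Tendsto (fun n => mulOp hj ((A n).indicator 1) f) atTop (𝓝 0) := by
  have hdiff : ∀ m n, m ≤ n → mulOp hj ((A m).indicator 1) f - mulOp hj ((A n).indicator 1) f
      = mulOp hj ((A m \ A n).indicator 1) f := by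
    intro m n hmn
    have e1 : (A m).indicator (1 : Ω → ℂ) = (A m \ A n).indicator 1 + (A n).indicator 1 := by
      ext ω
      by_cases h : ω ∈ A n
      · have h' : ω ∈ A m := hanti hmn h
        simp [h, h']
      · by_cases h' : ω ∈ A m <;> simp [h, h']
    rw [e1, mulOp_add hj (bmInd' ((hA m).diff (hA n))) (bmInd' (hA n)), _root_.add_apply,
      add_sub_cancel_right]
  have hcauchy : CauchySeq (fun n => mulOp hj ((A n).indicator 1) f) := by
    rw [Metric.cauchySeq_iff']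
    by_contra hcon
    push Not at hcon
    obtain ⟨ε, hε, hcon⟩ := hcon
    choose nx hnx1 hnx2 using hcon
    set N : ℕ → ℕ := fun k => Nat.rec 0 (fun _ n => nx n) k with hN
    have hNs : ∀ k, N (k + 1) = nx (N k) := fun k => rfl
    have hNmono : Monotone N := monotone_nat_of_le_succ fun k => by rw [hNs]; exact hnx1 _
    set C : ℕ → Set Ω := fun k => A (N k) \ A (N (k + 1)) with hC
    have hCm : ∀ k, MeasurableSet (C k) := fun k => (hA _).diff (hA _)
    have hCn : ∀ k, ε ≤ ‖mulOp hj ((C k).indicator 1) f‖ := by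
      intro k
      have h1 := hnx2 (N k)
      rw [dist_comm, dist_eq_norm, hdiff _ _ (hnx1 _)] at h1
      exact h1
    have hCd : ∀ i k, i < k → Disjoint (C i) (C k) := by
      intro i k hik
      rw [Set.disjoint_left]
      intro ω h1 h2
      exact h1.2 (hanti (hNmono hik) h2.1)
    have hCd' : ∀ i k, i ≠ k → Disjoint (C i) (C k) := by
      intro i k hik
      rcases lt_or_gt_of_ne hik with h | h
      · exact hCd i k h
      · exact (hCd k i h).symm
    set U : Set ℕ → Set Ω := fun S => ⋃ k ∈ S, C k with hU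
    have hUm : ∀ S, MeasurableSet (U S) := fun S =>
      MeasurableSet.biUnion (Set.to_countable S) fun k _ => hCm k
    have hsepar : ∀ S S' : Set ℕ, S ≠ S' →
        ε ≤ dist (mulOp hj ((U S).indicator 1) f) (mulOp hj ((U S').indicator 1) f) := by
      have main : ∀ S S' : Set ℕ, ∀ k, k ∈ S → k ∉ S' →
          ε ≤ dist (mulOp hj ((U S).indicator 1) f) (mulOp hj ((U S').indicator 1) f) := by
        intro S S' k hk hk'
        rw [dist_eq_norm]
        refine le_trans ?_ (norm_ind_le hj (hCm k) _)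
        rw [map_sub, ind_ind hj (hCm k) (hUm S), ind_ind hj (hCm k) (hUm S')]
        have e1 : C k ∩ U S = C k := by
          rw [Set.inter_eq_left]
          exact Set.subset_biUnion_of_mem (u := C) hk
        have e2 : C k ∩ U S' = ∅ := by
          rw [← Set.disjoint_iff_inter_eq_empty, hU, Set.disjoint_iUnion₂_right]
          intro i hi
          exact hCd' k i (fun h => hk' (h ▸ hi))
        rw [e1, e2, ind_empty, sub_zero]
        exact hCn k
      intro S S' hne
      by_cases hsub : S ⊆ S'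
      · obtain ⟨k, hk1, hk2⟩ := Set.not_subset.mp (fun h => hne (Set.Subset.antisymm hsub h))
        rw [dist_comm]
        exact main S' S k hk1 hk2
      · obtain ⟨k, hk1, hk2⟩ := Set.not_subset.mp hsub
        exact main S S' k hk1 hk2
    refine uncountable_false (Set.PairwiseDisjoint.countable_of_isOpen
      (s := fun S : Set ℕ => Metric.ball (mulOp hj ((U S).indicator 1) f) (ε / 2))
      (a := Set.univ) ?_ (fun S _ => Metric.isOpen_ball)
      (fun S _ => ⟨_, Metric.mem_ball_self (by positivity)⟩))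
    intro S _ S' _ hne
    refine Metric.ball_disjoint_ball ?_
    have := hsepar S S' hne
    linarith
  obtain ⟨g, hg⟩ := cauchySeq_tendsto_of_complete hcauchy
  have hg0 : g = 0 := by
    have h1 : ∀ m, mulOp hj ((A m)ᶜ.indicator 1) g = 0 := by
      intro m
      have h2 := ((mulOp hj ((A m)ᶜ.indicator 1)).continuous.tendsto g).comp hg
      refine tendsto_nhds_unique h2 ?_
      refine tendsto_const_nhds.congr' ?_
      filter_upwards [eventually_ge_atTop m] with n hn
      simp only [Function.comp]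
      rw [ind_ind hj (hA m).compl (hA n)]
      have : (A m)ᶜ ∩ A n = ∅ := by
        rw [← Set.disjoint_iff_inter_eq_empty]
        exact disjoint_compl_left.mono_right (hanti hn)
      rw [this, ind_empty]
    refine ext_ae hj ?_
    have h3 : ∀ᵐ ω ∂μ, ∀ m, (A m)ᶜ.indicator (1 : Ω → ℂ) ω * j g ω = 0 := by
      rw [ae_all_iff]
      intro m
      have h4 := j_mulOp_ae hj (bmInd' (hA m).compl) g
      rw [h1 m, map_zero] at h4
      filter_upwards [h4, AEEqFun.coeFn_zero (μ := μ) (α := Ω) (β := ℂ)] with ω e1 e2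
      rw [← e1, e2]; rfl
    rw [map_zero]
    filter_upwards [h3, AEEqFun.coeFn_zero (μ := μ) (α := Ω) (β := ℂ)] with ω e1 e2
    rw [e2]
    have h5 : ω ∉ ⋂ n, A n := by rw [hempty]; exact Set.notMem_empty ω
    rw [Set.mem_iInter, not_forall] at h5
    obtain ⟨m, hm⟩ := h5
    have h6 := e1 m
    rw [Set.indicator_of_mem (show ω ∈ (A m)ᶜ from hm), Pi.one_apply, one_mul] at h6
    exact h6
  rwa [hg0] at hg

/-- the action of bounded functions on a separable function space -/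
noncomputable def actOf [CompleteSpace X] [TopologicalSpace.SeparableSpace X]
    (hj : IsFunctionSpace μ j) : Act Ω X where
  M := mulOp hj
  add := fun ha hb => mulOp_add hj ha hb
  mul := fun ha hb f => mulOp_mul hj ha hb f
  smul := fun c ha => mulOp_smul hj c ha
  one := fun f => mulOp_one hj f
  norm_le := fun ha hC hC0 f => by
    rw [mulOp_apply hj ha]; exact norm_mulFn hj ha hC0 hC f
  cont := fun A hA hanti hempty f => ind_tendsto hj A hA hanti hempty f

/-- a weak unit generates -/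
theorem exists_unit [CompleteSpace X] [TopologicalSpace.SeparableSpace X]
    (hj : IsFunctionSpace μ j) : ∃ x : X, (actOf hj).IsUnit x := by
  set d : ℕ → X := TopologicalSpace.denseSeq X with hd
  have hdd : DenseRange d := TopologicalSpace.denseRange_denseSeq X
  set S : ℕ → Set Ω := fun n => {ω | (j (d n) : Ω → ℂ) ω ≠ 0} with hS
  have hjm : ∀ f : X, Measurable (j f : Ω → ℂ) := fun f => (AEEqFun.stronglyMeasurable _).measurable
  have hSm : ∀ n, MeasurableSet (S n) := fun n => (hjm (d n)) (measurableSet_singleton (0 : ℂ)).compl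
  set D : ℕ → Set Ω := disjointed S with hD
  have hDm : ∀ n, MeasurableSet (D n) := fun n => MeasurableSet.disjointed hSm n
  have hDd : ∀ m n, m ≠ n → Disjoint (D m) (D n) := fun m n h => disjoint_disjointed S h
  set c : ℕ → ℝ := fun n => (1 / 2) ^ n / (1 + ‖d n‖) with hc
  have hc0 : ∀ n, 0 < c n := fun n => by positivity
  set t : ℕ → X := fun n => c n • mulOp hj ((D n).indicator 1) (d n) with ht
  have hsum : Summable t := by
    refine Summable.of_norm_bounded (g := fun n => (1 / 2 : ℝ) ^ n) summable_geometric_two ?_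
    intro n
    rw [ht, norm_smul, Real.norm_eq_abs, abs_of_pos (hc0 n)]
    have h1 := norm_ind_le hj (hDm n) (d n)
    rw [hc]
    calc (1 / 2 : ℝ) ^ n / (1 + ‖d n‖) * ‖mulOp hj ((D n).indicator 1) (d n)‖
        ≤ (1 / 2 : ℝ) ^ n / (1 + ‖d n‖) * (1 + ‖d n‖) := by
          gcongr
          linarith
      _ = (1 / 2 : ℝ) ^ n := by field_simp
  set x : X := ∑' n, t n with hx
  have hPx : ∀ n, mulOp hj ((D n).indicator 1) x = c n • mulOp hj ((D n).indicator 1) (d n) := by
    intro n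
    rw [hx, ContinuousLinearMap.map_tsum _ hsum]
    rw [tsum_eq_single n]
    · rw [ht, map_smul, ind_ind hj (hDm n) (hDm n), Set.inter_self]
    · intro m hm
      rw [ht, map_smul, ind_ind hj (hDm n) (hDm m), (hDd n m (Ne.symm hm)).inter_eq,
        ind_empty, smul_zero]
  have hPx_ae : ∀ᵐ ω ∂μ, ∀ n, ω ∈ D n → (j x : Ω → ℂ) ω = (c n : ℂ) * (j (d n) : Ω → ℂ) ω := by
    rw [ae_all_iff]
    intro n
    have e0 : c n • mulOp hj ((D n).indicator 1) (d n)
        = (c n : ℂ) • mulOp hj ((D n).indicator 1) (d n) := by rw [Complex.coe_smul]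
    have h1 := j_mulOp_ae hj (bmInd' (hDm n)) x
    have h2 := j_mulOp_ae hj (bmInd' (hDm n)) (d n)
    rw [hPx n, e0, map_smul] at h1
    filter_upwards [h1, h2, AEEqFun.coeFn_smul (c n : ℂ) (j (mulOp hj ((D n).indicator 1) (d n)))]
      with ω e1 e2 e3 hω
    rw [e3, Pi.smul_apply, e2, Set.indicator_of_mem hω, Pi.one_apply, one_mul, one_mul] at e1
    rw [← e1, smul_eq_mul]
  have hUD : (⋃ n, D n) = ⋃ n, S n := iUnion_disjointed
  set Z : Set Ω := {ω | (j x : Ω → ℂ) ω = 0} with hZ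
  have hZm : MeasurableSet Z := hjm x (measurableSet_singleton (0 : ℂ))
  have hZS : ∀ᵐ ω ∂μ, ω ∈ Z → ∀ n, ω ∉ S n := by
    filter_upwards [hPx_ae] with ω h1 h2 n h3
    have h4 : ω ∈ ⋃ n, D n := by rw [hUD]; exact Set.mem_iUnion.mpr ⟨n, h3⟩
    obtain ⟨k, hk⟩ := Set.mem_iUnion.mp h4
    have h5 := h1 k hk
    rw [show (j x : Ω → ℂ) ω = 0 from h2] at h5
    have h6 : (j (d k) : Ω → ℂ) ω ≠ 0 := disjointed_subset S k hk
    have h7 : (c k : ℂ) ≠ 0 := by exact_mod_cast (hc0 k).ne'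
    exact (mul_ne_zero h7 h6) h5.symm
  have hPZd : ∀ n, mulOp hj (Z.indicator 1) (d n) = 0 := by
    intro n
    refine ext_ae hj ?_
    rw [map_zero]
    filter_upwards [j_mulOp_ae hj (bmInd' hZm) (d n), hZS,
      AEEqFun.coeFn_zero (μ := μ) (α := Ω) (β := ℂ)] with ω e1 e2 e3
    rw [e1, e3]
    by_cases hω : ω ∈ Z
    · have : (j (d n) : Ω → ℂ) ω = 0 := by
        by_contra h; exact e2 hω n h
      rw [this, mul_zero]; rfl
    · rw [Set.indicator_of_notMem hω, zero_mul]; rfl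
  have hPZ : ∀ f, mulOp hj (Z.indicator 1) f = 0 := by
    have : (fun f => mulOp hj (Z.indicator 1) f) = fun _ => (0 : X) :=
      hdd.equalizer (mulOp hj (Z.indicator 1)).continuous continuous_const (funext hPZd)
    exact fun f => congrFun this f
  refine ⟨x, fun f => ⟨fun ω => (j f : Ω → ℂ) ω / (j x : Ω → ℂ) ω, (hjm f).div (hjm x), ?_⟩⟩
  intro A hA hbd
  have hb : BM (A.indicator fun ω => (j f : Ω → ℂ) ω / (j x : Ω → ℂ) ω) :=
    Act.bm_of_bdd ((hjm f).div (hjm x)) hA hbd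
  refine ext_ae hj ?_
  have h1 := j_mulOp_ae hj (bmInd' hZm) f
  rw [hPZ f, map_zero] at h1
  filter_upwards [j_mulOp_ae hj (bmInd' hA) f, j_mulOp_ae hj hb x, h1,
    AEEqFun.coeFn_zero (μ := μ) (α := Ω) (β := ℂ)] with ω e1 e2 e3 e4
  change (j (mulOp hj (A.indicator 1) f) : Ω → ℂ) ω
    = (j (mulOp hj (A.indicator fun ω => (j f : Ω → ℂ) ω / (j x : Ω → ℂ) ω) x) : Ω → ℂ) ω
  rw [e1, e2]
  by_cases hω : ω ∈ A
  · rw [Set.indicator_of_mem hω, Set.indicator_of_mem hω, Pi.one_apply, one_mul]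
    by_cases hz : (j x : Ω → ℂ) ω = 0
    · rw [e4, Set.indicator_of_mem (show ω ∈ Z from hz), Pi.one_apply, one_mul] at e3
      rw [hz, mul_zero, ← e3]; rfl
    · rw [div_mul_cancel₀ _ hz]
  · rw [Set.indicator_of_notMem hω, Set.indicator_of_notMem hω, zero_mul, zero_mul]

theorem parallelogram_space [CompleteSpace X] [TopologicalSpace.SeparableSpace X]
    (hj : IsFunctionSpace μ j)
    (htr : ∀ y z : X, ‖y‖ = 1 → ‖z‖ = 1 → ∃ T : X ≃ₗᵢ[ℝ] X, T y = z) (f g : X) :
    ‖f + g‖ ^ 2 + ‖f - g‖ ^ 2 = 2 * (‖f‖ ^ 2 + ‖g‖ ^ 2) := by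
  obtain ⟨x, hx⟩ := exists_unit hj
  exact Act.parallelogram_of_transitive (actOf hj) hx htr f g

end Pool.Agent.Helper60.Rot
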