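import Mathlib

set_option autoImplicit false

open MeasureTheory

namespace Pool.Agent.Helper60.Rot

/-- `X`, embedded by `j` in the (classes of) measurable complex functions on the measure space
`(Ω, μ)`, is a complex function space with a solid norm: `j` is injective, and whenever `f ∈ X`
and `g` is measurable with `|g| ≤ |f|` almost everywhere then `g ∈ X` and `‖g‖ ≤ ‖f‖`. -/
structure IsFunctionSpace {Ω : Type*} [MeasurableSpace Ω] (μ : Measure Ω) {X : Type*}
    [NormedAddCommGroup X] [NormedSpace ℂ X] (j : X →ₗ[ℂ] (Ω →ₘ[μ] ℂ)) : Prop where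
  inj : Function.Injective j
  solid : ∀ (f : X) (g : Ω →ₘ[μ] ℂ), (∀ᵐ ω ∂μ, ‖g ω‖ ≤ ‖j f ω‖) →
    ∃ h : X, j h = g ∧ ‖h‖ ≤ ‖f‖

end Pool.Agent.Helper60.Rot
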